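import Pool.Agent.K7.H32.FT.Eig
import Pool.Agent.H776R3.EvenVol.TaskL

/-!
# Project FT: assembly
-/

set_option autoImplicit false

namespace Pool.Agent.K7.H32.FT

open Finset Matrix Filter Topology Pool.Agent.H550R3.Jones Pool.Agent.W715.VC
open Pool.Agent.W709.QAT (Piece Diag run jones)
open GapVol (lob)
open scoped Real

variable {N : ℕ}

/-! ### pieces -/

/-- pieces of a diagram with full twists -/
inductive TP
  | cup (i : ℕ)
  | cap (i : ℕ)
  | cross (i : ℕ) (σ : Bool)
  | full (i n : ℕ) (σ : Bool) (m : ℕ)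

/-- the diagram of the full twist -/
def ftd (i n : ℕ) (σ : Bool) : Diag := (ftw n).map fun j => Piece.twist (i + j) σ 1

/-- the pieces of the library -/
def TP.exp : TP → Diag
  | .cup i => [.cup i]
  | .cap i => [.cap i]
  | .cross i σ => [.twist i σ 1]
  | .full i n σ m => (List.replicate m (ftd i n σ)).flatten

/-- the rate of a full twist on `n` strands, divided by `2 π` -/
noncomputable def kp (n : ℕ) : ℝ :=
  n / 2 * Real.log (4 * (n : ℝ) ^ 2 + 4) + 3 * n * (2 * lob (π / 6) / π)

/-- the rate of a piece, divided by `2 π` -/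
noncomputable def TP.rt : TP → ℝ
  | .cup _ => 0
  | .cap _ => 0
  | .cross _ _ => 4 * lob (π / 4) / π
  | .full _ n _ _ => kp n

lemma act_cross (N : ℕ) (v : ℂ) (i : ℕ) (σ : Bool) (f : St N) :
    Piece.act N v (.twist i σ 1) f = cr (Rm N v σ) i f := by
  funext s
  simp only [Piece.act, pow_one]
  have h : ∀ (i : ℕ) (f : St N) (s : List (Fin N)), (match s.drop i with
      | a :: b :: r => ∑ p : Fin N × Fin N,
          (if σ then crossP N v else crossN N v) (a, b) p * f (s.take i ++ p.1 :: p.2 :: r)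
      | _ => 0) = cr (Rm N v σ) i f s := by
    intro i
    induction i with
    | zero =>
      intro f s
      rcases s with _ | ⟨a, _ | ⟨b, r⟩⟩
      · rfl
      · rfl
      · rw [cr_zero]; rfl
    | succ i ih =>
      intro f s
      rcases s with _ | ⟨c, s⟩
      · rfl
      · rw [cr_succ, ← ih (cm c f) s]
        rfl
  exact h i f s

lemma run_cons (N : ℕ) (v : ℂ) (P : Piece) (D : Diag) (f : St N) :
    run N v (P :: D) f = run N v D (P.act N v f) := rfl

lemma run_append (N : ℕ) (v : ℂ) (D D' : Diag) (f : St N) :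
    run N v (D ++ D') f = run N v D' (run N v D f) := by
  unfold run; rw [List.foldl_append]

lemma run_word (N : ℕ) (v : ℂ) (σ : Bool) (w : List ℕ) (i : ℕ) : ∀ f : St N,
    run N v (w.map fun j => Piece.twist (i + j) σ 1) f = opw (Rm N v σ) (w.map (i + ·)) f := by
  induction w with
  | nil => intro f; rfl
  | cons j w ih => intro f; rw [List.map_cons, List.map_cons, run_cons, act_cross, ih, opw_cons]

lemma cr_pre (R : Mx N) (j : ℕ) (t : List (Fin N)) : ∀ (pre : List (Fin N)) (f : St N),
    cr R (pre.length + j) f (pre ++ t) = cr R j (fun u => f (pre ++ u)) t := by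
  intro pre
  induction pre with
  | nil =>
    intro f
    simp only [List.length_nil, Nat.zero_add, List.nil_append]
  | cons a pre ih =>
    intro f
    have e : (a :: pre).length + j = (pre.length + j) + 1 := by simp; omega
    rw [e, List.cons_append, cr_succ, ih]
    rfl

lemma cr_suf (R : Mx N) (suf : List (Fin N)) (j : ℕ) : ∀ (f : St N) (t : List (Fin N)),
    j + 2 ≤ t.length → cr R j f (t ++ suf) = cr R j (fun u => f (u ++ suf)) t := by
  induction j with
  | zero =>
    intro f t ht
    rcases t with _ | ⟨a, _ | ⟨c, r⟩⟩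
    · simp at ht
    · simp at ht
    · rw [List.cons_append, List.cons_append, cr_zero, cr_zero]; rfl
  | succ j ih =>
    intro f t ht
    rcases t with _ | ⟨a, t⟩
    · simp at ht
    · rw [List.cons_append, cr_succ, cr_succ, ih _ _ (by simpa using ht)]
      rfl

lemma opw_shift (R : Mx N) (pre suf : List (Fin N)) (n : ℕ) (w : List ℕ)
    (hw : ∀ j ∈ w, j + 2 ≤ n) : ∀ (f : St N) (t : List (Fin N)), t.length = n →
    opw R (w.map (pre.length + ·)) f (pre ++ (t ++ suf)) =
      opw R w (fun u => f (pre ++ (u ++ suf))) t := by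
  induction w with
  | nil => intro f t _; rfl
  | cons j w ih =>
    intro f t ht
    rw [List.map_cons, opw_cons, opw_cons, ih (fun k hk => hw k (List.mem_cons_of_mem _ hk)) _ t ht]
    refine opw_local R w n _ _ (fun u hu => ?_) t ht
    rw [cr_pre, cr_suf R suf j _ u (by rw [hu]; exact hw j List.mem_cons_self)]

lemma opw_zero (R : Mx N) (w : List ℕ) (L j : ℕ) (hj : j ∈ w) (hL : L < j + 2) : ∀ (f : St N)
    (s : List (Fin N)), s.length = L → opw R w f s = 0 := by
  induction w with
  | nil => simp at hj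
  | cons i w ih =>
    intro f s hs
    rw [opw_cons]
    rcases List.mem_cons.1 hj with rfl | h
    · exact opw_local0 R w L _ (fun t ht => cr_short R j f t (by omega)) s hs
    · exact ih h _ s hs

lemma run_full (N : ℕ) (v : ℂ) (i n : ℕ) (σ : Bool) (m : ℕ) (f : St N)
    (pre suf t : List (Fin N)) (hp : pre.length = i) (ht : t.length = n) :
    run N v (List.replicate m (ftd i n σ)).flatten f (pre ++ (t ++ suf)) =
      ((ft N v n σ) ^ m) (fun u => f (pre ++ (u ++ suf))) t := by
  induction m generalizing f t with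
  | zero => rfl
  | succ m ih =>
    rw [List.replicate_succ, List.flatten_cons, run_append, ih _ t ht, pow_succ,
      Module.End.mul_apply]
    have hloc : ∀ (m : ℕ) (g h : St N), (∀ u, u.length = n → g u = h u) → ∀ u, u.length = n →
        ((ft N v n σ) ^ m) g u = ((ft N v n σ) ^ m) h u := by
      intro m
      induction m with
      | zero => intro g h hgh u hu; exact hgh u hu
      | succ m ih' =>
        intro g h hgh u hu
        rw [pow_succ, Module.End.mul_apply, Module.End.mul_apply]
        exact ih' _ _ (opw_local _ _ n _ _ hgh) u hu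
    refine hloc m _ _ (fun u hu => ?_) t ht
    unfold ftd ft
    rw [run_word, ← hp, opw_shift _ pre suf n _ (ftw_mem n) f u hu]

lemma run_full_short (N : ℕ) (v : ℂ) (i n : ℕ) (hn : 2 ≤ n) (σ : Bool) (m : ℕ) (f : St N)
    (s : List (Fin N)) (hs : s.length < i + n) :
    run N v (List.replicate (m + 1) (ftd i n σ)).flatten f s = 0 := by
  have h1 : ∀ (g : St N) (t : List (Fin N)), t.length = s.length → run N v (ftd i n σ) g t = 0 := by
    intro g t ht
    unfold ftd
    rw [run_word]
    refine opw_zero _ _ s.length (i + (n - 2)) ?_ (by omega) g t ht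
    refine List.mem_map.2 ⟨n - 2, ?_, rfl⟩
    obtain ⟨k, rfl⟩ : ∃ k, n = k + 2 := ⟨n - 2, by omega⟩
    rw [ftw, List.mem_append, List.mem_append, List.mem_range]
    exact Or.inl (Or.inl (by omega))
  rw [List.replicate_succ', List.flatten_append, run_append]
  simp only [List.flatten_cons, List.flatten_nil, List.append_nil]
  exact h1 _ s rfl

lemma ftd_small (i n : ℕ) (hn : n < 2) (σ : Bool) : ftd i n σ = [] := by
  interval_cases n <;> rfl

/-! ### the bound on the circle -/

/-- what is used on the circle -/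
structure Bd (N : ℕ) (v : ℂ) (ε : ℝ) (D : List TP) : Prop where
  cross : ∀ (σ : Bool) (p q : Fin N × Fin N),
    ‖Rm N v σ p q‖ ≤ Real.exp (N * (4 * lob (π / 4) / π + ε))
  cup : ∀ p, ‖Pool.Agent.W709.QAT.cup N v p‖ ≤ Real.exp (N * ε)
  cap : ∀ p, ‖Pool.Agent.W709.QAT.cap N v p‖ ≤ Real.exp (N * ε)
  full : ∀ i n σ m, TP.full i n σ m ∈ D → 1 ≤ n → ∀ (f : St N) (B : ℝ), 0 ≤ B →
    (∀ s : List (Fin N), s.length = n → ‖f s‖ ≤ B) → ∀ s : List (Fin N), s.length = n →
      ‖((ft N v n σ) ^ m) f s‖ ≤ Real.exp (N * (kp n + ε)) * B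

lemma kp_nonneg (n : ℕ) : 0 ≤ kp n := by
  unfold kp
  have h1 : 0 ≤ lob (π / 6) := by
    have := EvenVol.LobIneq.lob_nonneg (x := π / 6) (by positivity) (by linarith [Real.pi_pos])
    exact this
  have h2 : 0 ≤ Real.log (4 * (n : ℝ) ^ 2 + 4) := Real.log_nonneg (by nlinarith [sq_nonneg (n : ℝ)])
  positivity

lemma card_pairs (N : ℕ) : (Finset.univ : Finset (Fin N × Fin N)).card = N ^ 2 := by
  rw [Finset.card_univ, Fintype.card_prod, Fintype.card_fin, sq]

lemma piece_bound {N : ℕ} {v : ℂ} {ε : ℝ} (hε : 0 ≤ ε) (hN : 1 ≤ N) {D : List TP}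
    (hB : Bd N v ε D) (P : TP) (hP : P ∈ D) (f : St N) (B : ℝ) (hB0 : 0 ≤ B)
    (hf : ∀ s, ‖f s‖ ≤ B) (s : List (Fin N)) :
    ‖run N v P.exp f s‖ ≤ (N : ℝ) ^ 2 * Real.exp (N * (P.rt + ε)) * B := by
  have hN1 : (1 : ℝ) ≤ (N : ℝ) ^ 2 := by
    have : (1 : ℝ) ≤ N := by exact_mod_cast hN
    exact one_le_pow₀ this
  rcases P with i | i | ⟨i, σ⟩ | ⟨i, n, σ, m⟩
  · -- cup
    show ‖Piece.act N v (.cup i) f s‖ ≤ _
    simp only [Piece.act, TP.rt, zero_add]
    have h0 : 0 ≤ (N : ℝ) ^ 2 * Real.exp (N * ε) * B := by positivity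
    split
    · rw [norm_mul]
      calc _ ≤ Real.exp (N * ε) * B := mul_le_mul (hB.cup _) (hf _) (norm_nonneg _) (Real.exp_pos _).le
        _ ≤ (N : ℝ) ^ 2 * (Real.exp (N * ε) * B) :=
          le_mul_of_one_le_left (by positivity) hN1
        _ = _ := by ring
    · simpa using h0
  · -- cap
    show ‖Piece.act N v (.cap i) f s‖ ≤ _
    simp only [Piece.act, TP.rt, zero_add]
    calc _ ≤ ∑ p : Fin N × Fin N, ‖Pool.Agent.W709.QAT.cap N v p * f (s.take i ++ p.1 :: p.2 :: s.drop i)‖ :=
          norm_sum_le _ _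
      _ ≤ ∑ _p : Fin N × Fin N, Real.exp (N * ε) * B := by
          refine sum_le_sum fun p _ => ?_
          rw [norm_mul]
          exact mul_le_mul (hB.cap _) (hf _) (norm_nonneg _) (Real.exp_pos _).le
      _ = (N : ℝ) ^ 2 * Real.exp (N * ε) * B := by
          rw [sum_const, card_pairs, nsmul_eq_mul]; push_cast; ring
  · -- crossing
    show ‖Piece.act N v (.twist i σ 1) f s‖ ≤ _
    rw [act_cross]
    simp only [TP.rt]
    have key : ∀ (i : ℕ) (f : St N), (∀ s, ‖f s‖ ≤ B) → ∀ s, ‖cr (Rm N v σ) i f s‖ ≤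
        (N : ℝ) ^ 2 * Real.exp (N * (4 * lob (π / 4) / π + ε)) * B := by
      intro i
      induction i with
      | zero =>
        intro f hf s
        rcases s with _ | ⟨a, _ | ⟨b, r⟩⟩
        · rw [cr_short _ _ _ _ (by simp), norm_zero]; positivity
        · rw [cr_short _ _ _ _ (by simp), norm_zero]; positivity
        · rw [cr_zero]
          calc _ ≤ ∑ p : Fin N × Fin N, ‖Rm N v σ (a, b) p * f (p.1 :: p.2 :: r)‖ := norm_sum_le _ _
            _ ≤ ∑ _p : Fin N × Fin N, Real.exp (N * (4 * lob (π / 4) / π + ε)) * B := by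
                refine sum_le_sum fun p _ => ?_
                rw [norm_mul]
                exact mul_le_mul (hB.cross σ _ _) (hf _) (norm_nonneg _) (Real.exp_pos _).le
            _ = _ := by rw [sum_const, card_pairs, nsmul_eq_mul]; push_cast; ring
      | succ i ih =>
        intro f hf s
        rcases s with _ | ⟨a, s⟩
        · rw [cr_short _ _ _ _ (by simp), norm_zero]; positivity
        · rw [cr_succ]
          exact ih _ (fun t => hf _) s
    exact key i f hf s
  · -- full twist
    simp only [TP.exp, TP.rt]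
    have hk := kp_nonneg n
    have hE : 1 ≤ Real.exp (N * (kp n + ε)) := Real.one_le_exp (by positivity)
    have h0 : B ≤ (N : ℝ) ^ 2 * Real.exp (N * (kp n + ε)) * B := by
      have : 1 ≤ (N : ℝ) ^ 2 * Real.exp (N * (kp n + ε)) := one_le_mul_of_one_le_of_one_le hN1 hE
      exact le_mul_of_one_le_left hB0 this
    rcases Nat.lt_or_ge n 2 with hn | hn
    · have e : (List.replicate m (ftd i n σ)).flatten = [] := by
        rw [ftd_small i n hn σ]; simp
      rw [e]
      exact (hf s).trans h0
    · rcases m with _ | m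
      · exact (hf s).trans h0
      · rcases Nat.lt_or_ge s.length (i + n) with hs | hs
        · rw [run_full_short N v i n hn σ m f s hs, norm_zero]; positivity
        · have e : s = s.take i ++ ((s.drop i).take n ++ (s.drop i).drop n) := by
            rw [List.take_append_drop, List.take_append_drop]
          rw [e, run_full N v i n σ (m + 1) f _ _ _ (by rw [List.length_take]; omega)
            (by rw [List.length_take, List.length_drop]; omega)]
          refine (hB.full i n σ (m + 1) hP (by omega) _ B hB0 (fun u _ => hf _) _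
            (by rw [List.length_take, List.length_drop]; omega)).trans ?_
          rw [mul_assoc]
          exact le_mul_of_one_le_left (by positivity) hN1

/-- the expanded diagram -/
def xp (D : List TP) : Diag := D.flatMap TP.exp

lemma run_bound {N : ℕ} {v : ℂ} {ε : ℝ} (hε : 0 ≤ ε) (hN : 1 ≤ N) {D : List TP}
    (hB : Bd N v ε D) : ∀ (D' : List TP), (∀ P ∈ D', P ∈ D) → ∀ (f : St N) (B : ℝ), 0 ≤ B →
    (∀ s, ‖f s‖ ≤ B) → ∀ s : List (Fin N), ‖run N v (xp D') f s‖ ≤
      (N : ℝ) ^ (2 * D'.length) * Real.exp (N * ((D'.map TP.rt).sum + D'.length * ε)) * B := by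
  intro D'
  induction D' with
  | nil =>
    intro _ f B _ hf s
    show ‖f s‖ ≤ _
    simpa using hf s
  | cons P D' ih =>
    intro hD f B hB0 hf s
    have e : xp (P :: D') = P.exp ++ xp D' := rfl
    rw [e, run_append]
    refine (ih (fun Q hQ => hD Q (List.mem_cons_of_mem _ hQ)) _ _ (by positivity)
      (piece_bound hε hN hB P (hD P List.mem_cons_self) f B hB0 hf) s).trans (le_of_eq ?_)
    rw [List.map_cons, List.sum_cons, List.length_cons]
    have e1 : (N : ℝ) * (P.rt + (D'.map TP.rt).sum + ((D'.length + 1 : ℕ) : ℝ) * ε) =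
        N * ((D'.map TP.rt).sum + D'.length * ε) + N * (P.rt + ε) := by push_cast; ring
    rw [e1, Real.exp_add]
    ring

lemma jones_bound {N : ℕ} {v : ℂ} {ε : ℝ} (hε : 0 ≤ ε) (hN : 1 ≤ N) {D : List TP}
    (hB : Bd N v ε D) : ‖jones N (xp D) v‖ ≤
      (N : ℝ) ^ (2 * D.length) * Real.exp (N * ((D.map TP.rt).sum + D.length * ε)) := by
  unfold jones
  rw [dif_pos (show 0 < N from hN)]
  refine (run_bound hε hN hB D (fun _ h => h) _ 1 zero_le_one (fun s => ?_) _).trans
    (le_of_eq (mul_one _))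
  split_ifs <;> simp

/-- the bound at the root of unity, for large `N` -/
lemma root_bound (hpow : S_POW) (hfac : S_FAC) (hlow : S_LOW) (hent : S_ENTRY) (hhol : S_HOL)
    (hall : ∀ (N : ℕ), 1 ≤ N → ∀ (n K : ℕ), n * N ≤ K → N ≤ K → ∀ v ∈ Om K,
      ∀ (σ : Bool) (A : ℕ) (f : St N) (s : List (Fin N)), s.length = n →
        ((ft N v n σ) ^ A) f s = rhs N v n σ A f s) (hbnd : S_BND) (D : List TP) (ε : ℝ)
    (hε : 0 < ε) : ∀ᶠ N : ℕ in atTop, ‖jones N (xp D) (rt N)‖ ≤
      (N : ℝ) ^ (2 * D.length) * Real.exp (N * ((D.map TP.rt).sum + D.length * ε)) := by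
  have hfull : ∀ᶠ N : ℕ in atTop, ∀ v : ℂ, OnC N v → ∀ i n σ m, TP.full i n σ m ∈ D → 1 ≤ n →
      ∀ (f : St N) (B : ℝ), 0 ≤ B →
      (∀ s : List (Fin N), s.length = n → ‖f s‖ ≤ B) → ∀ s : List (Fin N), s.length = n →
        ‖((ft N v n σ) ^ m) f s‖ ≤ Real.exp (N * (kp n + ε)) * B := by
    have h1 : ∀ D' : List TP, ∀ᶠ N : ℕ in atTop, ∀ v : ℂ, OnC N v → ∀ i n σ m,
        TP.full i n σ m ∈ D' → 1 ≤ n →
        ∀ (f : St N) (B : ℝ), 0 ≤ B →
        (∀ s : List (Fin N), s.length = n → ‖f s‖ ≤ B) → ∀ s : List (Fin N), s.length = n →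
          ‖((ft N v n σ) ^ m) f s‖ ≤ Real.exp (N * (kp n + ε)) * B := by
      intro D'
      induction D' with
      | nil => exact Eventually.of_forall fun N v _ i n σ m h => by simp at h
      | cons P D' ih =>
        rcases P with i | i | ⟨i, σ⟩ | ⟨i, n, σ, m⟩
        · filter_upwards [ih] with N h v hv i' n' σ' m' hm
          exact h v hv i' n' σ' m' (by simpa using hm)
        · filter_upwards [ih] with N h v hv i' n' σ' m' hm
          exact h v hv i' n' σ' m' (by simpa using hm)
        · filter_upwards [ih] with N h v hv i' n' σ' m' hm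
          exact h v hv i' n' σ' m' (by simpa using hm)
        · rcases Nat.eq_zero_or_pos n with hn | hn
          · filter_upwards [ih] with N h v hv i' n' σ' m' hm hn' f B hB0 hf s hs
            rcases List.mem_cons.1 hm with h2 | h2
            · injection h2 with _ h3 _ _
              omega
            · exact h v hv i' n' σ' m' h2 hn' f B hB0 hf s hs
          · filter_upwards [ih, hbnd hpow hlow n m hn ε hε, eventually_ge_atTop 1] with
              N h hb hN1 v hv i' n' σ' m' hm hn' f B hB0 hf s hs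
            rcases List.mem_cons.1 hm with h2 | h2
            · injection h2 with h3 h4 h5 h6
              subst h4 h5 h6
              obtain ⟨hOm, hb2⟩ := hb v hv
              rw [hall N hN1 n' (n' * N) le_rfl (Nat.le_mul_of_pos_left _ hn) v hOm σ' m' f s hs]
              have := hb2 σ' f B hB0 hf s hs
              unfold kp
              exact this
            · exact h v hv i' n' σ' m' h2 hn' f B hB0 hf s hs
    exact h1 D
  filter_upwards [hfac, hent ε hε, hfull, eventually_ge_atTop 1] with N h1 h2 h3 hN1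
  have hr : 0 < 1 / (N : ℝ) ^ 4 := by positivity
  have hd : DiffContOnCl ℂ (jones N (xp D)) (Metric.ball (rt N) (1 / (N : ℝ) ^ 4)) := by
    refine DifferentiableOn.diffContOnCl fun v hv => ?_
    rw [closure_ball _ hr.ne'] at hv
    have hn : Near N v := by
      unfold Near
      rw [← dist_eq_norm]; exact hv
    exact (hhol N (xp D) v hN1 (h1 v hn).1).differentiableWithinAt
  refine Complex.norm_le_of_forall_mem_frontier_norm_le Metric.isBounded_ball hd (fun v hv => ?_)
    (subset_closure (Metric.mem_ball_self hr))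
  rw [frontier_ball _ hr.ne'] at hv
  have hon : OnC N v := by
    unfold OnC
    rw [← dist_eq_norm]; exact hv
  have hnear : Near N v := le_of_eq hon
  refine jones_bound hε.le hN1 ⟨fun σ p q => ?_, fun p => ((h2 v hnear).2 p).1,
    fun p => ((h2 v hnear).2 p).2, fun i n σ m hm hn => h3 v hon i n σ m hm hn⟩
  cases σ
  · have := ((h2 v hnear).1 p q).2
    unfold Rm; rw [if_neg (by simp)]; exact this
  · have := ((h2 v hnear).1 p q).1
    unfold Rm; rw [if_pos rfl]; exact this

/-- the growth rate -/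
lemma growth_of (hpow : S_POW) (hfac : S_FAC) (hlow : S_LOW) (hent : S_ENTRY) (hhol : S_HOL)
    (hall : ∀ (N : ℕ), 1 ≤ N → ∀ (n K : ℕ), n * N ≤ K → N ≤ K → ∀ v ∈ Om K,
      ∀ (σ : Bool) (A : ℕ) (f : St N) (s : List (Fin N)), s.length = n →
        ((ft N v n σ) ^ A) f s = rhs N v n σ A f s) (hbnd : S_BND) (D : List TP) (ε : ℝ)
    (hε : 0 < ε) : ∀ᶠ N : ℕ in atTop, 2 * π * (Real.log ‖jones N (xp D) (rt N)‖ / N) ≤
      2 * π * (D.map TP.rt).sum + ε := by
  have hpi := Real.pi_pos
  obtain ⟨L, hL⟩ : ∃ L : ℕ, L = D.length := ⟨_, rfl⟩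
  have hL0 : (0 : ℝ) < L + 1 := by positivity
  obtain ⟨ε', hε'⟩ : ∃ ε' : ℝ, ε' = ε / (8 * π * (L + 1)) := ⟨_, rfl⟩
  have hε'0 : 0 < ε' := by rw [hε']; positivity
  have hlog : ∀ᶠ N : ℕ in atTop, Real.log N / N < ε / (8 * π * (L + 1)) := by
    have h1 : Tendsto (fun N : ℕ => Real.log N / N) atTop (𝓝 0) :=
      (Real.isLittleO_log_id_atTop.tendsto_div_nhds_zero).comp tendsto_natCast_atTop_atTop
    exact h1.eventually (gt_mem_nhds (by rw [← hε']; exact hε'0))
  filter_upwards [root_bound hpow hfac hlow hent hhol hall hbnd D ε' hε'0, hlog,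
    eventually_ge_atTop 1] with N h1 h2 hN1
  have hN : (1 : ℝ) ≤ N := by exact_mod_cast hN1
  have hN0 : (0 : ℝ) < N := by linarith
  rw [← hL] at h1
  have hrt : 0 ≤ (D.map TP.rt).sum := by
    refine List.sum_nonneg fun x hx => ?_
    obtain ⟨P, _, rfl⟩ := List.mem_map.1 hx
    have h4 : 0 ≤ lob (π / 4) := EvenVol.LobIneq.lob_nonneg (x := π / 4) (by positivity) (by linarith)
    rcases P with i | i | ⟨i, σ⟩ | ⟨i, n, σ, m⟩
    · exact le_rfl
    · exact le_rfl
    · simp only [TP.rt]; positivity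
    · exact kp_nonneg n
  have h3 : Real.log ‖jones N (xp D) (rt N)‖ ≤
      2 * L * Real.log N + N * ((D.map TP.rt).sum + L * ε') := by
    rcases (norm_nonneg (jones N (xp D) (rt N))).eq_or_lt with h0 | h0
    · rw [← h0, Real.log_zero]
      have := Real.log_nonneg hN
      positivity
    · refine (Real.log_le_log h0 h1).trans (le_of_eq ?_)
      rw [Real.log_mul (by positivity) (Real.exp_pos _).ne', Real.log_exp, Real.log_pow]
      push_cast; ring
  have h4 : Real.log ‖jones N (xp D) (rt N)‖ / N ≤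
      2 * L * (Real.log N / N) + ((D.map TP.rt).sum + L * ε') := by
    rw [div_le_iff₀ hN0]
    refine h3.trans (le_of_eq ?_)
    field_simp
  have h5 : 2 * (L : ℝ) * (Real.log N / N) ≤ 2 * L * ε' := by
    rw [hε']
    exact mul_le_mul_of_nonneg_left h2.le (by positivity)
  have h6 : 2 * π * (3 * (L : ℝ) * ε') ≤ ε := by
    rw [hε']
    have : 2 * π * (3 * (L : ℝ) * (ε / (8 * π * (L + 1)))) = 3 / 4 * ε * (L / (L + 1)) := by
      field_simp; ring
    rw [this]
    have h7 : (L : ℝ) / (L + 1) ≤ 1 := by rw [div_le_one hL0]; linarith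
    nlinarith [hε]
  calc 2 * π * (Real.log ‖jones N (xp D) (rt N)‖ / N) ≤
        2 * π * (2 * L * (Real.log N / N) + ((D.map TP.rt).sum + L * ε')) :=
        mul_le_mul_of_nonneg_left h4 (by positivity)
    _ ≤ 2 * π * (2 * L * ε' + ((D.map TP.rt).sum + L * ε')) :=
        mul_le_mul_of_nonneg_left (by linarith) (by positivity)
    _ = 2 * π * (D.map TP.rt).sum + 2 * π * (3 * (L : ℝ) * ε') := by ring
    _ ≤ _ := by linarith

end Pool.Agent.K7.H32.FT
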