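import Pool.Agent.K7.H32.FT.Stm2

/-!
# Project FT: the eigenvalues of the full twist
-/

set_option autoImplicit false

namespace Pool.Agent.K7.H32.FT

open Finset Matrix Filter Pool.Agent.H550R3.Jones Pool.Agent.W715.VC

variable {N : ℕ}

/-! ### sums over states -/

lemma sm_congr {M : Type} [AddCommMonoid M] (n : ℕ) : ∀ (h h' : List (Fin N) → M),
    (∀ s, s.length = n → h s = h' s) → sm n h = sm n h' := by
  induction n with
  | zero => intro h h' hh; exact hh [] rfl
  | succ n ih =>
    intro h h' hh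
    exact sum_congr rfl fun a _ => ih _ _ fun s hs => hh _ (by simp [hs])

lemma sm_add {M : Type} [AddCommMonoid M] (n : ℕ) : ∀ (h h' : List (Fin N) → M),
    sm n (fun s => h s + h' s) = sm n h + sm n h' := by
  induction n with
  | zero => intro h h'; rfl
  | succ n ih =>
    intro h h'
    simp only [sm]
    rw [← sum_add_distrib]
    exact sum_congr rfl fun a _ => ih _ _

lemma sm_zero {M : Type} [AddCommMonoid M] (n : ℕ) : sm n (fun _ : List (Fin N) => (0 : M)) = 0 := by
  induction n with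
  | zero => rfl
  | succ n ih => simp only [sm]; exact sum_eq_zero fun a _ => ih

lemma sm_mul (n : ℕ) (c : ℂ) : ∀ (h : List (Fin N) → ℂ), sm n (fun s => c * h s) = c * sm n h := by
  induction n with
  | zero => intro h; rfl
  | succ n ih =>
    intro h
    simp only [sm]
    rw [mul_sum]
    exact sum_congr rfl fun a _ => ih _

lemma ip_add_left (x : ℝ) (n : ℕ) (f f' g : St N) : ip x n (f + f') g = ip x n f g + ip x n f' g := by
  unfold ip
  rw [← sm_add]
  refine sm_congr n _ _ fun s _ => ?_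
  simp only [Pi.add_apply, map_add]; ring

lemma ip_add_right (x : ℝ) (n : ℕ) (f g g' : St N) : ip x n f (g + g') = ip x n f g + ip x n f g' := by
  unfold ip
  rw [← sm_add]
  refine sm_congr n _ _ fun s _ => ?_
  simp only [Pi.add_apply]; ring

lemma ip_smul_left (x : ℝ) (n : ℕ) (c : ℂ) (f g : St N) :
    ip x n (c • f) g = starRingEnd ℂ c * ip x n f g := by
  unfold ip
  rw [← sm_mul]
  refine sm_congr n _ _ fun s _ => ?_
  simp only [Pi.smul_apply, smul_eq_mul, map_mul]; ring

lemma ip_smul_right (x : ℝ) (n : ℕ) (c : ℂ) (f g : St N) :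
    ip x n f (c • g) = c * ip x n f g := by
  unfold ip
  rw [← sm_mul]
  refine sm_congr n _ _ fun s _ => ?_
  simp only [Pi.smul_apply, smul_eq_mul]; ring

lemma ip_zero_right (x : ℝ) (n : ℕ) (f g : St N) (h : ∀ s, s.length = n → g s = 0) :
    ip x n f g = 0 := by
  unfold ip
  rw [← sm_zero (N := N) (M := ℂ) n]
  refine sm_congr n _ _ fun s hs => ?_
  rw [h s hs]; ring

lemma ip_congr (x : ℝ) (n : ℕ) (f f' g g' : St N) (h : ∀ s, s.length = n → f s = f' s)
    (h' : ∀ s, s.length = n → g s = g' s) : ip x n f g = ip x n f' g' := by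
  unfold ip
  exact sm_congr n _ _ fun s hs => by rw [h s hs, h' s hs]

lemma SA.sub {x : ℝ} {n : ℕ} {P Q : St N →ₗ[ℂ] St N} (hP : SA x n P) (hQ : SA x n Q) :
    SA x n (P - Q) := by
  intro f g
  have h1 : (P - Q) f = P f + (-1 : ℂ) • Q f := by
    rw [LinearMap.sub_apply, neg_one_smul, sub_eq_add_neg]
  have h2 : (P - Q) g = P g + (-1 : ℂ) • Q g := by
    rw [LinearMap.sub_apply, neg_one_smul, sub_eq_add_neg]
  rw [h1, h2, ip_add_left, ip_add_right, ip_smul_left, ip_smul_right, hP f g, hQ f g]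
  simp

/-! ### words -/

lemma opw_append (R : Mx N) (w w' : List ℕ) (f : St N) :
    opw R (w ++ w') f = opw R w' (opw R w f) := by
  induction w generalizing f with
  | nil => rfl
  | cons i w ih => exact ih _

lemma opw_cons (R : Mx N) (i : ℕ) (w : List ℕ) (f : St N) : opw R (i :: w) f = opw R w (cr R i f) := rfl

lemma ftw_reverse (n : ℕ) : (ftw n).reverse = ftw n := by
  induction n with
  | zero => rfl
  | succ n ih =>
    rw [ftw, List.reverse_append, List.reverse_append, List.reverse_reverse, ih, List.append_assoc]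

lemma ip_opw {x : ℝ} {n : ℕ} {R : Mx N} (hR : ∀ i, SA x n (cr R i)) (w : List ℕ) :
    ∀ f g, ip x n (opw R w f) g = ip x n f (opw R w.reverse g) := by
  induction w with
  | nil => intro f g; rfl
  | cons i w ih =>
    intro f g
    rw [opw_cons, ih, hR, List.reverse_cons, opw_append]
    rfl

/-- locality -/
lemma cr_local (R : Mx N) (i : ℕ) : ∀ (n : ℕ) (f g : St N), (∀ s, s.length = n → f s = g s) →
    ∀ s, s.length = n → cr R i f s = cr R i g s := by
  induction i with
  | zero =>
    intro n f g h s hs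
    rcases s with _ | ⟨a, _ | ⟨b, r⟩⟩
    · rfl
    · rfl
    · rw [cr_zero, cr_zero]
      exact sum_congr rfl fun p _ => by rw [h _ (by simpa using hs)]
  | succ i ih =>
    intro n f g h s hs
    rcases s with _ | ⟨a, s⟩
    · rfl
    · rw [cr_succ, cr_succ]
      exact ih s.length _ _ (fun t ht => by
        rw [cm_apply, cm_apply, h _ (by rw [List.length_cons, ht]; simpa using hs)]) s rfl

lemma opw_local (R : Mx N) (w : List ℕ) : ∀ (n : ℕ) (f g : St N), (∀ s, s.length = n → f s = g s) →
    ∀ s, s.length = n → opw R w f s = opw R w g s := by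
  induction w with
  | nil => intro n f g h s hs; exact h s hs
  | cons i w ih =>
    intro n f g h s hs
    rw [opw_cons, opw_cons]
    exact ih n _ _ (cr_local R i n f g h) s hs

lemma opw_local0 (R : Mx N) (w : List ℕ) (n : ℕ) (f : St N) (h : ∀ s, s.length = n → f s = 0)
    (s : List (Fin N)) (hs : s.length = n) : opw R w f s = 0 := by
  rw [opw_local R w n f 0 (fun t ht => h t ht) s hs, map_zero]; rfl

lemma cr_snoc (R : Mx N) (i : ℕ) (b : Fin N) : ∀ (f : St N) (r : List (Fin N)), i + 2 ≤ r.length →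
    cr R i f (r ++ [b]) = cr R i (fun t => f (t ++ [b])) r := by
  induction i with
  | zero =>
    intro f r hr
    rcases r with _ | ⟨a, _ | ⟨c, r⟩⟩
    · simp at hr
    · simp at hr
    · rw [List.cons_append, List.cons_append, cr_zero, cr_zero]; rfl
  | succ i ih =>
    intro f r hr
    rcases r with _ | ⟨a, r⟩
    · simp at hr
    · rw [List.cons_append, cr_succ, cr_succ, ih _ _ (by simpa using hr)]
      rfl

lemma opw_snoc (R : Mx N) (b : Fin N) (n : ℕ) (w : List ℕ) (hw : ∀ i ∈ w, i + 2 ≤ n) :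
    ∀ (f : St N) (r : List (Fin N)), r.length = n →
      opw R w f (r ++ [b]) = opw R w (fun t => f (t ++ [b])) r := by
  induction w with
  | nil => intro f r _; rfl
  | cons i w ih =>
    intro f r hr
    rw [opw_cons, opw_cons, ih (fun j hj => hw j (List.mem_cons_of_mem _ hj)) _ r hr]
    refine opw_local R w n _ _ (fun t ht => ?_) r hr
    exact cr_snoc R i b f t (by rw [ht]; exact hw i List.mem_cons_self)

lemma ftw_mem (n : ℕ) : ∀ i ∈ ftw n, i + 2 ≤ n := by
  induction n with
  | zero => intro i hi; simp [ftw] at hi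
  | succ n ih =>
    intro i hi
    rw [ftw, List.mem_append, List.mem_append, List.mem_reverse, List.mem_range] at hi
    rcases hi with (h | h) | h
    · omega
    · have := ih i h; omega
    · omega

lemma eo_opw {v : ℂ} (hv : v ≠ 0) {R : Mx N} (hw : Wp R) (hR : R * (W v N).E = (W v N).E * R)
    (w : List ℕ) : ∀ f, eo v (opw R w f) = opw R w (eo v f) := by
  induction w with
  | nil => intro f; rfl
  | cons i w ih =>
    intro f
    rw [opw_cons, opw_cons, ih]
    congr 1
    funext s
    exact eo_cr hv hw hR i f s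

lemma opw_mu {R : Mx N} (hw : Wp R) (φ : ℕ → ℤ → ℂ) (w : List ℕ) : ∀ f,
    opw R w (mu φ f) = mu φ (opw R w f) := by
  induction w with
  | nil => intro f; rfl
  | cons i w ih => intro f; rw [opw_cons, opw_cons, cr_mu' hw, ih]

lemma KE.opw {v : ℂ} (hv : v ≠ 0) {R : Mx N} (hw : Wp R) (hR : R * (W v N).E = (W v N).E * R)
    (w : List ℕ) {n : ℕ} {f : St N} (h : KE v n f) : KE v n (opw R w f) := by
  intro s hs
  rw [eo_opw hv hw hR]
  exact opw_local0 R w n _ h s hs

lemma KE.mu {v : ℂ} {n : ℕ} {f : St N} (h : KE v n f) (φ : ℕ → ℤ → ℂ) : KE v n (mu φ f) := by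
  intro s hs
  rw [eo_mu, h s hs, mul_zero]

lemma KE.sub {v : ℂ} {n : ℕ} {f g : St N} (hf : KE v n f) (hg : KE v n g) : KE v n (f - g) := by
  intro s hs
  rw [map_sub, Pi.sub_apply, hf s hs, hg s hs, sub_zero]

/-! ### real points -/

lemma br_real_ne {x : ℝ} (hx : 1 < x) {k : ℕ} (hk : 0 < k) : br (x : ℂ) k ≠ 0 := by
  have h0 : 0 < x := by linarith
  have h1 : (x : ℂ) ^ ((k : ℕ) : ℤ) - (x : ℂ) ^ (-((k : ℕ) : ℤ)) =
      ((x ^ ((k : ℕ) : ℤ) - x ^ (-((k : ℕ) : ℤ)) : ℝ) : ℂ) := by push_cast; rfl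
  unfold br
  rw [h1]
  have h2 : 1 < x ^ k := one_lt_pow₀ hx (by omega)
  have h3 : x ^ (-((k : ℕ) : ℤ)) < 1 := by
    rw [_root_.zpow_neg, zpow_natCast]
    exact inv_lt_one_of_one_lt₀ h2
  have h4 : 0 < x ^ ((k : ℕ) : ℤ) - x ^ (-((k : ℕ) : ℤ)) := by
    rw [zpow_natCast]; linarith
  exact_mod_cast h4.ne'

lemma real_ne {x : ℝ} (hx : 1 < x) : (x : ℂ) ≠ 0 := by
  have h0 : x ≠ 0 := by linarith
  exact_mod_cast h0

lemma adm_real {x : ℝ} (hx : 1 < x) (N : ℕ) : Adm N (x : ℂ) :=
  ⟨real_ne hx, fun _ h0 _ => br_real_ne hx h0⟩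

lemma P_Wp (v : ℂ) : Wp (crossP N v) := fun p q h => by
  have := P_wt h
  exact_mod_cast this

lemma Q_Wp (v : ℂ) : Wp (crossN N v) := fun p q h => by
  have := Q_wt h
  exact_mod_cast this

/-! ### the eigenvalues -/

/-- killed by `E` and no components with first index at least `K` -/
def VK (v : ℂ) (n K : ℕ) (g : St N) : Prop := KE v (n + 1) g ∧
  ∀ (a : Fin N) (r : List (Fin N)), r.length = n → K ≤ (a : ℕ) → g (a :: r) = 0

/-- the deviation -/
noncomputable def dev (N : ℕ) (v : ℂ) (n : ℕ) : St N →ₗ[ℂ] St N :=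
  ft N v n true - mu (fun _ y => v ^ (ee N n y))

lemma step (hup : S_UP) (hdn : S_DN) (hcmp : S_CMP) {x : ℝ} (hx : 1 < x) (n K : ℕ)
    (IH : ∀ f : St N, KE (x : ℂ) n f → ∀ s, s.length = n →
      ft N x n true f s = (x : ℂ) ^ (ee N n (isum s)) * f s)
    (g : St N) (hg : VK (x : ℂ) n (K + 1) g) : VK (x : ℂ) n K (dev N x (n + 1) g) := by
  obtain ⟨v, hv⟩ : ∃ v : ℂ, v = (x : ℂ) := ⟨_, rfl⟩
  have hadm := adm_real hx N
  have hv0 := real_ne hx
  rw [← hv] at IH hg hadm hv0 ⊢
  have hP := P_comm_E hadm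
  have hWp := P_Wp (N := N) v
  obtain ⟨hg1, hg2⟩ := hg
  have hft : ft N v (n + 1) true g = opw (crossP N v) (List.range n).reverse
      (ft N v n true (opw (crossP N v) (List.range n) g)) := by
    unfold ft Rm
    rw [if_pos rfl, ftw, opw_append, opw_append]
  have hftn : ∀ f, ft N v n true f = opw (crossP N v) (ftw n) f := by
    intro f; unfold ft Rm; rw [if_pos rfl]
  have hKE : KE v (n + 1) (dev N v (n + 1) g) := by
    unfold dev
    rw [LinearMap.sub_apply]
    refine KE.sub ?_ (hg1.mu _)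
    unfold ft Rm
    rw [if_pos rfl]
    exact hg1.opw hv0 hWp hP _
  refine ⟨hKE, fun a r hr ha => ?_⟩
  set y := opw (crossP N v) (List.range n) g with hy
  set y' := ft N v n true y with hy'
  have hyK : KE v (n + 1) y := hg1.opw hv0 hWp hP _
  have hyK' : KE v (n + 1) y' := by rw [hy', hftn]; exact hyK.opw hv0 hWp hP _
  have hzK : KE v (n + 1) (ft N v (n + 1) true g) := by
    rw [hft]; exact hyK'.opw hv0 hWp hP _
  have hz := hcmp N v hadm n (ft N v (n + 1) true g) y' hzK hyK' (fun k t hk ht => by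
    rw [hft]
    exact hdn N v hadm y' k n hk t ht) a r hr
  have hKN : K < N := lt_of_le_of_lt ha a.2
  have hup' := hup N v hadm g ⟨K, hKN⟩ n (fun c t ht hc => hg2 c t ht (by
    have : (K : ℕ) < c := hc
    omega))
  -- the components of `y'`
  have hsn : ∀ b : Fin N, y' (r ++ [b]) = ft N v n true (fun t => y (t ++ [b])) r := by
    intro b
    rw [hy', hftn, hftn]
    exact opw_snoc _ b n _ (ftw_mem n) y r hr
  have hdev : dev N v (n + 1) g (a :: r) = ft N v (n + 1) true g (a :: r) -
      v ^ (ee N (n + 1) ((a : ℕ) + isum r)) * g (a :: r) := by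
    unfold dev
    rw [LinearMap.sub_apply, Pi.sub_apply, mu_apply, isum_cons]
  rw [hdev, hz, hsn]
  rcases Nat.lt_or_ge K a with hlt | hge
  · -- above the top index
    have h1 : ft N v n true (fun t => y (t ++ [a])) r = 0 := by
      rw [hftn]
      exact opw_local0 _ _ n _ (fun t ht => (hup' t ht).1 a hlt) r hr
    rw [h1, hg2 a r hr (by omega)]; ring
  · have haK : a = ⟨K, hKN⟩ := Fin.ext (by simp only; omega)
    have hKE' : KE v n (cm a g) := by
      intro t ht
      have h1 := hg1 (a :: t) (by simp [ht])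
      rw [eo_cons] at h1
      have h2 : (if h : (a : ℕ) + 1 < N then
          br v ((N : ℤ) - 1 - (a : ℕ)) * v ^ (wtl t) * g (⟨a + 1, h⟩ :: t) else 0) = 0 := by
        split_ifs with h
        · rw [hg2 ⟨a + 1, h⟩ t ht (by simp only; omega), mul_zero]
        · rfl
      rw [h2, zero_add] at h1
      exact h1
    have h1 : ft N v n true (fun t => y (t ++ [a])) r = ft N v n true (mu (fun _ z =>
        v ^ (-(((N : ℤ) - 1) * (n * (1 + (a : ℕ)) + z)) + 2 * (a : ℕ) * z)) (cm a g)) r := by
      rw [hftn, hftn]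
      refine opw_local _ _ n _ _ (fun t ht => ?_) r hr
      have h3 := (hup' t ht).2
      rw [← haK] at h3
      rw [hy, h3, mu_apply, cm_apply]
    have h2 : ft N v n true (mu (fun _ z =>
        v ^ (-(((N : ℤ) - 1) * (n * (1 + (a : ℕ)) + z)) + 2 * (a : ℕ) * z)) (cm a g)) r =
        v ^ (-(((N : ℤ) - 1) * (n * (1 + (a : ℕ)) + isum r)) + 2 * (a : ℕ) * isum r) *
          (v ^ (ee N n (isum r)) * g (a :: r)) := by
      have h3 := IH (cm a g) hKE' r hr
      rw [hftn] at h3 ⊢
      rw [opw_mu hWp, mu_apply, h3, cm_apply]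
    rw [h1, h2, ← mul_assoc, ← mul_assoc, ← zpow_add₀ hv0, ← zpow_add₀ hv0, sub_eq_zero]
    congr 2
    unfold ee
    push_cast
    ring

theorem t_eig (hsac : S_SAC) (hpos : S_POS) (hup : S_UP) (hdn : S_DN) (hcmp : S_CMP) : S_EIG := by
  intro N x hx n
  induction n with
  | zero =>
    intro f _ s hs
    have : s = [] := List.length_eq_zero_iff.1 hs
    subst this
    show f [] = _
    simp [ee]
  | succ n IH =>
    intro f hf s hs
    obtain ⟨hp1, hp2, hp3⟩ := hpos N x hx (n + 1)
    -- self-adjointness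
    have hT : SA x (n + 1) (ft N x (n + 1) true) := by
      intro g g'
      unfold ft
      rw [ip_opw (fun i => hsac N x hx true i (n + 1)), ftw_reverse]
    have hM : SA (N := N) x (n + 1) (mu (fun _ y => (x : ℂ) ^ (ee N (n + 1) y))) := by
      refine hp3 _ fun _ y => ?_
      rw [map_zpow₀, Complex.conj_ofReal]
    have hD : SA x (n + 1) (dev N x (n + 1)) := hT.sub hM
    -- nilpotence
    have hV : ∀ m : ℕ, ∀ K : ℕ, N ≤ K + m → VK (x : ℂ) n K ((dev N x (n + 1) ^ m) f) := by
      intro m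
      induction m with
      | zero =>
        intro K hK
        exact ⟨hf, fun a r hr ha => by have := a.2; omega⟩
      | succ m ih =>
        intro K hK
        rw [pow_succ', Module.End.mul_apply]
        exact step hup hdn hcmp hx n K IH _ (ih (K + 1) (by omega))
    have h0 : ∀ t : List (Fin N), t.length = n + 1 → (dev N x (n + 1) ^ (N + 1)) f t = 0 := by
      intro t ht
      rcases t with _ | ⟨a, r⟩
      · simp at ht
      · exact (hV (N + 1) 0 (by omega)).2 a r (by simpa using ht) (Nat.zero_le _)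
    -- descent
    have hdown : ∀ m : ℕ, (∀ t : List (Fin N), t.length = n + 1 → (dev N x (n + 1) ^ (m + 1)) f t = 0) →
        ∀ t : List (Fin N), t.length = n + 1 → dev N x (n + 1) f t = 0 := by
      intro m
      induction m with
      | zero => intro h t ht; simpa using h t ht
      | succ m ih =>
        intro h
        refine ih fun t ht => ?_
        refine hp2 _ ?_ t ht
        have e1 : (dev N x (n + 1) ^ (m + 1)) f = dev N x (n + 1) ((dev N x (n + 1) ^ m) f) := by
          rw [pow_succ', Module.End.mul_apply]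
        have e2 : ip x (n + 1) ((dev N x (n + 1) ^ (m + 1)) f) ((dev N x (n + 1) ^ (m + 1)) f) =
            ip x (n + 1) ((dev N x (n + 1) ^ m) f) ((dev N x (n + 1) ^ (m + 1 + 1)) f) := by
          conv_lhs => rw [e1]
          rw [hD, pow_succ' _ (m + 1), Module.End.mul_apply, e1]
        rw [e2]
        exact ip_zero_right _ _ _ _ h
    have h1 := hdown N h0 s hs
    unfold dev at h1
    rw [LinearMap.sub_apply, Pi.sub_apply, mu_apply, sub_eq_zero] at h1
    exact h1

end Pool.Agent.K7.H32.FT
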