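import Pool.Agent.K7.H32.FT.Eig

/-!
# Project FT: the crossings are self-adjoint for real `x > 1`
-/

set_option autoImplicit false

namespace Pool.Agent.K7.H32.FT

open Finset Matrix Filter Pool.Agent.H550R3.Jones Pool.Agent.W715.VC

variable {N : ℕ}

lemma rb_cast (x : ℝ) (k : ℤ) : ((rb x k : ℝ) : ℂ) = br (x : ℂ) k := by
  unfold rb br; push_cast; rfl

lemma rbf_cast (x : ℝ) (n : ℕ) : ((rbf x n : ℝ) : ℂ) = brf (x : ℂ) n := by
  unfold rbf brf
  rw [Complex.ofReal_prod]
  exact prod_congr rfl fun j _ => rb_cast x _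

lemma rb_pos {x : ℝ} (hx : 1 < x) {k : ℕ} (hk : 0 < k) : 0 < rb x k := by
  have h0 : 0 < x := by linarith
  have h2 : 1 < x ^ k := one_lt_pow₀ hx (by omega)
  have h3 : x ^ (-((k : ℕ) : ℤ)) < 1 := by
    rw [_root_.zpow_neg, zpow_natCast]
    exact inv_lt_one_of_one_lt₀ h2
  unfold rb
  rw [zpow_natCast]; linarith

lemma rbf_pos {x : ℝ} (hx : 1 < x) (n : ℕ) : 0 < rbf x n :=
  prod_pos fun j _ => by
    have := rb_pos hx (k := j + 1) (by omega)
    push_cast at this
    exact this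

/-- the weight of one strand -/
noncomputable def gam (N : ℕ) (x : ℝ) (a : ℕ) : ℝ := 1 / (rbf x a * rbf x (N - 1 - a))

/-- the weight of two strands -/
noncomputable def g2 (N : ℕ) (x : ℝ) (p : Fin N × Fin N) : ℝ :=
  gam N x p.1 * gam N x p.2 * x ^ (-(2 * ((p.1 : ℕ) : ℤ) * (p.2 : ℕ)))

lemma gam_pos {x : ℝ} (hx : 1 < x) (a : ℕ) : 0 < gam N x a := by
  unfold gam
  exact one_div_pos.2 (mul_pos (rbf_pos hx _) (rbf_pos hx _))

lemma g2_pos {x : ℝ} (hx : 1 < x) (p : Fin N × Fin N) : 0 < g2 N x p := by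
  unfold g2
  have h0 : 0 < x := by linarith
  exact mul_pos (mul_pos (gam_pos hx _) (gam_pos hx _)) (zpow_pos h0 _)

lemma brf_add (v : ℂ) (m n : ℕ) :
    brf v (m + n) = brf v m * ∏ t ∈ range n, br v ((m : ℤ) + 1 + t) := by
  induction n with
  | zero => simp
  | succ n ih =>
    rw [← add_assoc, brf_succ', ih, prod_range_succ, mul_assoc]
    congr 3
    push_cast; ring

/-- the symmetric entries -/
lemma P_sym {x : ℝ} (hx : 1 < x) (p q : Fin N × Fin N) :
    (g2 N x p : ℂ) * crossP N x p q = (g2 N x q : ℂ) * crossP N x q p := by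
  have key : ∀ p q : Fin N × Fin N, (g2 N x p : ℂ) * crossP N x p q =
      if (p.1 : ℕ) + p.2 = q.1 + q.2 ∧ (q.2 : ℕ) ≤ p.1 then
        (x : ℂ) ^ (-((N : ℤ) - 1) * (1 + (q.1 : ℕ) + (q.2 : ℕ))) *
        (x : ℂ) ^ (((p.1 : ℕ) - q.2) * ((p.1 : ℕ) - q.2 - 1) / 2) /
        (brf x (N - 1 - p.1) * brf x p.2 * brf x q.2 * brf x ((p.1 : ℕ) - q.2) *
          brf x (N - 1 - q.1)) else 0 := by
    intro p q
    unfold crossP
    split_ifs with h
    · obtain ⟨h1, h2⟩ := h
      have hq1 := q.1.2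
      have hp1 := p.1.2
      have hp2 := p.2.2
      have hb : ∀ k : ℕ, brf (x : ℂ) k ≠ 0 := by
        intro k
        rw [← rbf_cast]
        exact_mod_cast (rbf_pos hx k).ne'
      have hv := real_ne hx
      have e1 : ∏ t ∈ range ((p.1 : ℕ) - q.2), br (x : ℂ) ((N : ℤ) - (q.1 : ℕ) + t) =
          brf x (N - 1 - p.2) / brf x (N - 1 - q.1) := by
        rw [eq_div_iff (hb _), mul_comm]
        have e2 : N - 1 - (p.2 : ℕ) = (N - 1 - (q.1 : ℕ)) + ((p.1 : ℕ) - q.2) := by omega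
        rw [e2, brf_add]
        congr 1
        refine prod_congr rfl fun t _ => ?_
        congr 2
        omega
      rw [e1]
      unfold g2 gam
      push_cast
      rw [rbf_cast, rbf_cast, rbf_cast, rbf_cast]
      have e3 : (x : ℂ) ^ (-(2 * ((p.1 : ℕ) : ℤ) * (p.2 : ℕ))) *
          (x : ℂ) ^ (-((N : ℤ) - 1) * (1 + (q.1 : ℕ) + (q.2 : ℕ)) + 2 * (p.1 : ℕ) * (p.2 : ℕ)) =
          (x : ℂ) ^ (-((N : ℤ) - 1) * (1 + (q.1 : ℕ) + (q.2 : ℕ))) := by
        rw [← zpow_add₀ hv]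
        congr 1; ring
      rw [← e3]
      have f1 := hb (p.1 : ℕ)
      have f2 := hb (N - 1 - (p.1 : ℕ))
      have f3 := hb (p.2 : ℕ)
      have f4 := hb (N - 1 - (p.2 : ℕ))
      have f5 := hb (q.2 : ℕ)
      have f6 := hb ((p.1 : ℕ) - q.2)
      have f7 := hb (N - 1 - (q.1 : ℕ))
      field_simp
    · rw [mul_zero]
  rw [key p q, key q p]
  by_cases h : (p.1 : ℕ) + p.2 = q.1 + q.2 ∧ (q.2 : ℕ) ≤ p.1
  · rw [if_pos h, if_pos (by omega)]
    obtain ⟨h1, h2⟩ := h
    have e1 : (q.1 : ℕ) - p.2 = (p.1 : ℕ) - q.2 := by omega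
    have e2 : (1 : ℤ) + (q.1 : ℕ) + (q.2 : ℕ) = 1 + (p.1 : ℕ) + (p.2 : ℕ) := by omega
    rw [e1, e2]
    congr 1
    ring
  · rw [if_neg h, if_neg (by omega)]

lemma conj_br_real (x : ℝ) (k : ℤ) : starRingEnd ℂ (br (x : ℂ) k) = br (x : ℂ) k := by
  rw [← rb_cast, Complex.conj_ofReal]

lemma conj_brf_real (x : ℝ) (k : ℕ) : starRingEnd ℂ (brf (x : ℂ) k) = brf (x : ℂ) k := by
  rw [← rbf_cast, Complex.conj_ofReal]

lemma P_real (x : ℝ) (p q : Fin N × Fin N) :
    starRingEnd ℂ (crossP N x p q) = crossP N x p q := by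
  unfold crossP
  split_ifs
  · simp only [map_mul, map_div₀, map_zpow₀, map_pow, map_prod, Complex.conj_ofReal,
      conj_br_real, conj_brf_real]
  · rw [map_zero]

lemma Q_real (x : ℝ) (p q : Fin N × Fin N) :
    starRingEnd ℂ (crossN N x p q) = crossN N x p q := by
  unfold crossN
  split_ifs
  · simp only [map_mul, map_div₀, map_zpow₀, map_pow, map_prod, Complex.conj_ofReal,
      conj_br_real, conj_brf_real, map_neg, map_one]
  · rw [map_zero]

lemma Q_sym {x : ℝ} (hx : 1 < x) (p q : Fin N × Fin N) :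
    (g2 N x p : ℂ) * crossN N x p q = (g2 N x q : ℂ) * crossN N x q p := by
  set D : Mx N := diagonal fun p => (g2 N x p : ℂ) with hD
  have h1 : D * crossP N x = (crossP N x)ᵀ * D := by
    ext p q
    rw [hD, Matrix.diagonal_mul, Matrix.mul_diagonal, Matrix.transpose_apply, P_sym hx, mul_comm]
  have h2 : D * crossN N x = (crossN N x)ᵀ * D := by
    have hPQ := PQ (adm_real hx N)
    calc D * crossN N x = (crossP N x * crossN N x)ᵀ * (D * crossN N x) := by
          rw [hPQ, Matrix.transpose_one, Matrix.one_mul]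
      _ = (crossN N x)ᵀ * ((crossP N x)ᵀ * D) * crossN N x := by
          rw [Matrix.transpose_mul]; simp only [Matrix.mul_assoc]
      _ = (crossN N x)ᵀ * (D * crossP N x) * crossN N x := by rw [h1]
      _ = (crossN N x)ᵀ * D * (crossP N x * crossN N x) := by simp only [Matrix.mul_assoc]
      _ = (crossN N x)ᵀ * D := by rw [hPQ, Matrix.mul_one]
  have h3 := congrFun (congrFun h2 p) q
  rw [hD, Matrix.diagonal_mul, Matrix.mul_diagonal, Matrix.transpose_apply, mul_comm (crossN N x q p)]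
    at h3
  exact h3

lemma sm_sum {M ι : Type} [AddCommMonoid M] (t : Finset ι) (n : ℕ) : ∀ (h : ι → List (Fin N) → M),
    sm n (fun s => ∑ i ∈ t, h i s) = ∑ i ∈ t, sm n (h i) := by
  induction n with
  | zero => intro h; rfl
  | succ n ih =>
    intro h
    simp only [sm]
    rw [sum_comm]
    exact sum_congr rfl fun a _ => ih _

lemma GG_cons (x : ℝ) (a : Fin N) (s : List (Fin N)) :
    GG x (a :: s) = gam N x a * x ^ (-(2 * (a : ℕ) * isum s)) * GG x s := rfl

lemma cr_adj {x : ℝ} (hx : 1 < x) {R : Mx N} (hw : Wp R)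
    (hs : ∀ p q, (g2 N x p : ℂ) * R p q = (g2 N x q : ℂ) * R q p)
    (hr : ∀ p q, starRingEnd ℂ (R p q) = R p q) (i : ℕ) : ∀ (n : ℕ) (φ : ℤ → ℂ) (f g : St N),
    sm n (fun s => φ (isum s) * ((GG x s : ℂ) * (starRingEnd ℂ (cr R i f s) * g s))) =
      sm n (fun s => φ (isum s) * ((GG x s : ℂ) * (starRingEnd ℂ (f s) * cr R i g s))) := by
  induction i with
  | zero =>
    intro n φ f g
    rcases n with _ | _ | n
    · simp only [sm]
      rw [cr_short _ _ _ _ (by simp), cr_short _ _ _ _ (by simp)]; simp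
    · simp only [sm]
      refine sum_congr rfl fun a _ => ?_
      rw [cr_short _ _ _ _ (by simp), cr_short _ _ _ _ (by simp)]; simp
    · simp only [sm]
      have key : ∀ h : List (Fin N) → ℂ, (∑ a : Fin N, ∑ b : Fin N, sm n (fun s => h (a :: b :: s))) =
          sm n (fun s => ∑ p : Fin N × Fin N, h (p.1 :: p.2 :: s)) := by
        intro h
        rw [sm_sum, Fintype.sum_prod_type]
      rw [key (fun s => φ (isum s) * ((GG x s : ℂ) * (starRingEnd ℂ (cr R 0 f s) * g s))),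
        key (fun s => φ (isum s) * ((GG x s : ℂ) * (starRingEnd ℂ (f s) * cr R 0 g s)))]
      refine sm_congr n _ _ fun r _ => ?_
      have hG : ∀ p : Fin N × Fin N, (GG x (p.1 :: p.2 :: r) : ℂ) = (g2 N x p : ℂ) *
          ((x : ℂ) ^ (-(2 * (((p.1 : ℕ) : ℤ) + (p.2 : ℕ)) * isum r)) * GG x r) := by
        intro p
        rw [GG_cons, GG_cons, isum_cons]
        unfold g2
        push_cast
        have e : (x : ℂ) ^ (-(2 * ((p.1 : ℕ) : ℤ) * ((p.2 : ℕ) + isum r))) *
            (x : ℂ) ^ (-(2 * ((p.2 : ℕ) : ℤ) * isum r)) =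
            (x : ℂ) ^ (-(2 * ((p.1 : ℕ) : ℤ) * (p.2 : ℕ))) *
            (x : ℂ) ^ (-(2 * (((p.1 : ℕ) : ℤ) + (p.2 : ℕ)) * isum r)) := by
          rw [← zpow_add₀ (real_ne hx), ← zpow_add₀ (real_ne hx)]
          congr 1; ring
        linear_combination (gam N x p.1 : ℂ) * (gam N x p.2 : ℂ) * (GG x r : ℂ) * e
      have hL : ∀ p : Fin N × Fin N,
          φ (isum (p.1 :: p.2 :: r)) * ((GG x (p.1 :: p.2 :: r) : ℂ) *
            (starRingEnd ℂ (cr R 0 f (p.1 :: p.2 :: r)) * g (p.1 :: p.2 :: r))) =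
          ∑ q : Fin N × Fin N, (φ (((p.1 : ℕ) : ℤ) + (p.2 : ℕ) + isum r) *
            ((x : ℂ) ^ (-(2 * (((p.1 : ℕ) : ℤ) + (p.2 : ℕ)) * isum r)) * GG x r)) *
            ((g2 N x p : ℂ) * R p q) * (starRingEnd ℂ (f (q.1 :: q.2 :: r)) *
              g (p.1 :: p.2 :: r)) := by
        intro p
        rw [cr_zero, hG, map_sum, sum_mul, mul_sum, mul_sum, isum_cons, isum_cons, ← add_assoc]
        refine sum_congr rfl fun q _ => ?_
        rw [map_mul, hr]
        ring
      have hR' : ∀ p : Fin N × Fin N,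
          φ (isum (p.1 :: p.2 :: r)) * ((GG x (p.1 :: p.2 :: r) : ℂ) *
            (starRingEnd ℂ (f (p.1 :: p.2 :: r)) * cr R 0 g (p.1 :: p.2 :: r))) =
          ∑ q : Fin N × Fin N, (φ (((p.1 : ℕ) : ℤ) + (p.2 : ℕ) + isum r) *
            ((x : ℂ) ^ (-(2 * (((p.1 : ℕ) : ℤ) + (p.2 : ℕ)) * isum r)) * GG x r)) *
            ((g2 N x p : ℂ) * R p q) * (starRingEnd ℂ (f (p.1 :: p.2 :: r)) *
              g (q.1 :: q.2 :: r)) := by
        intro p
        rw [cr_zero, hG, mul_sum, mul_sum, mul_sum, isum_cons, isum_cons, ← add_assoc]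
        refine sum_congr rfl fun q _ => ?_
        ring
      simp only [hL, hR']
      rw [sum_comm]
      refine sum_congr rfl fun q _ => sum_congr rfl fun p _ => ?_
      congr 1
      rw [hs q p]
      by_cases h : R p q = 0
      · rw [h]; ring
      · have h1 := hw _ _ h
        rw [h1]
  | succ i ih =>
    intro n φ f g
    rcases n with _ | n
    · simp only [sm]
      rw [cr_short _ _ _ _ (by simp), cr_short _ _ _ _ (by simp)]; simp
    · simp only [sm]
      refine sum_congr rfl fun a _ => ?_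
      have h1 := ih n (fun y => φ ((a : ℕ) + y) * ((gam N x a : ℂ) *
        (x : ℂ) ^ (-(2 * ((a : ℕ) : ℤ) * y)))) (cm a f) (cm a g)
      have e : ∀ (u w : St N),
          sm n (fun s => φ (isum (a :: s)) * ((GG x (a :: s) : ℂ) *
            (starRingEnd ℂ (u (a :: s)) * w (a :: s)))) =
          sm n (fun s => (φ ((a : ℕ) + isum s) * ((gam N x a : ℂ) *
            (x : ℂ) ^ (-(2 * ((a : ℕ) : ℤ) * isum s)))) * ((GG x s : ℂ) *
              (starRingEnd ℂ (cm a u s) * cm a w s))) := by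
        intro u w
        refine sm_congr n _ _ fun s _ => ?_
        rw [GG_cons, isum_cons, cm_apply, cm_apply]
        push_cast
        ring
      rw [e, e, cm_cr_succ, cm_cr_succ]
      exact h1

theorem t_sac : S_SAC := by
  intro N x hx σ i n f g
  have h1 : ∀ R : Mx N, Wp R → (∀ p q, (g2 N x p : ℂ) * R p q = (g2 N x q : ℂ) * R q p) →
      (∀ p q, starRingEnd ℂ (R p q) = R p q) → ip x n (cr R i f) g = ip x n f (cr R i g) := by
    intro R hw hs hr
    have := cr_adj hx hw hs hr i n (fun _ => 1) f g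
    simp only [one_mul] at this
    exact this
  cases σ
  · exact h1 _ (by unfold Rm; rw [if_neg (by simp)]; exact Q_Wp _)
      (by unfold Rm; rw [if_neg (by simp)]; exact Q_sym hx)
      (by unfold Rm; rw [if_neg (by simp)]; exact Q_real x)
  · exact h1 _ (by unfold Rm; rw [if_pos rfl]; exact P_Wp _)
      (by unfold Rm; rw [if_pos rfl]; exact P_sym hx)
      (by unfold Rm; rw [if_pos rfl]; exact P_real x)

end Pool.Agent.K7.H32.FT
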