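import Pool.Agent.K7.H32.FT.Asm
import Pool.Agent.K7.H32.FT.Sac
import Pool.Agent.K7.H39.FT_JP
import Pool.Agent.K7.H35.FT_JC
import Pool.Agent.K7.H79.FT_JB
import Pool.Agent.K7.H60.FT_JH
import Pool.Agent.K7.H60.FT_JE
import Pool.Agent.K7.H47.FT_JL
import Pool.Agent.K7.H81.FT_JN
import Pool.Agent.K7.H81.FT_JX
import Pool.Agent.K7.H33.FT_JG
import Pool.Agent.K7.H45.FT_JQ

/-!
# Project FT: the growth rate of diagrams with full twists
-/

set_option autoImplicit false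

namespace Pool.Agent.K7.H32.FT

open Filter Topology Pool.Agent.W715.VC
open Pool.Agent.W709.QAT (jones)
open scoped Real

theorem s_eig : S_EIG := t_eig t_sac Pool.Agent.K7.H33.FT.t_pos Pool.Agent.K7.H79.FT.t_up
  Pool.Agent.K7.H79.FT.t_dn Pool.Agent.K7.H79.FT.t_cmp

theorem s_real : S_REAL := Pool.Agent.K7.H39.FTJP.t_real t_sac Pool.Agent.K7.H33.FT.t_adj
  Pool.Agent.K7.H33.FT.t_pos Pool.Agent.K7.H33.FT.t_neg s_eig Pool.Agent.K7.H39.FTJP.t_pri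

/-- the powers of the full twist are polynomials in the Casimir operator -/
theorem s_all : ∀ (N : ℕ), 1 ≤ N → ∀ (n K : ℕ), n * N ≤ K → N ≤ K → ∀ v ∈ Om K,
    ∀ (σ : Bool) (A : ℕ) (f : St N) (s : List (Fin N)), s.length = n →
      ((ft N v n σ) ^ A) f s = rhs N v n σ A f s :=
  Pool.Agent.K7.H35.FT_JC.t_all s_real Pool.Agent.K7.H81.FT.JX.t

theorem s_ent : S_ENTRY :=
  Pool.Agent.K7.H60.FT_JE.t Pool.Agent.K7.H81.FT.JN.t_pow Pool.Agent.K7.H81.FT.JN.t_fac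

/-- the growth rate -/
theorem growth (D : List TP) (ε : ℝ) (hε : 0 < ε) : ∀ᶠ N : ℕ in atTop,
    2 * π * (Real.log ‖jones N (xp D) (rt N)‖ / N) ≤ 2 * π * (D.map TP.rt).sum + ε :=
  growth_of Pool.Agent.K7.H81.FT.JN.t_pow Pool.Agent.K7.H81.FT.JN.t_fac Pool.Agent.K7.H47.FTJL.t
    s_ent Pool.Agent.K7.H60.FT_JH.t s_all Pool.Agent.K7.H45.FTJQ.t_bnd D ε hε

end Pool.Agent.K7.H32.FT
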