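import Pool.Agent.K7.H32.FT.Stm

/-!
# Project FT: the operators `E`, `F` and the crossings on `n` strands
-/

set_option autoImplicit false

namespace Pool.Agent.K7.H32.FT

open Finset Matrix Pool.Agent.H550R3.Jones Pool.Agent.W715.VC

variable {N : ℕ}

/-- vectors: functions on the states -/
abbrev St (N : ℕ) := List (Fin N) → ℂ

/-- the sum of the indices -/
def isum (s : List (Fin N)) : ℤ := (s.map (fun a => ((a : ℕ) : ℤ))).sum

@[simp] lemma isum_nil : isum ([] : List (Fin N)) = 0 := rfl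
@[simp] lemma isum_cons (a : Fin N) (s : List (Fin N)) : isum (a :: s) = (a : ℕ) + isum s := by
  simp [isum]
@[simp] lemma isum_append (s t : List (Fin N)) : isum (s ++ t) = isum s + isum t := by
  simp [isum]

/-- the weight -/
def wtl (s : List (Fin N)) : ℤ := s.length * ((N : ℤ) - 1) - 2 * isum s

@[simp] lemma wtl_nil : wtl ([] : List (Fin N)) = 0 := by simp [wtl]
lemma wtl_cons (a : Fin N) (s : List (Fin N)) :
    wtl (a :: s) = ((N : ℤ) - 1 - 2 * (a : ℕ)) + wtl s := by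
  simp [wtl]; ring

/-- the first index fixed -/
def cm (a : Fin N) : St N →ₗ[ℂ] St N where
  toFun f := fun t => f (a :: t)
  map_add' _ _ := rfl
  map_smul' _ _ := rfl

@[simp] lemma cm_apply (a : Fin N) (f : St N) (t : List (Fin N)) : cm a f t = f (a :: t) := rfl

/-- the value at a state -/
def ev (s : List (Fin N)) : St N →ₗ[ℂ] ℂ := LinearMap.proj s

@[simp] lemma ev_apply (s : List (Fin N)) (f : St N) : ev s f = f s := rfl

noncomputable def eL (v : ℂ) : List (Fin N) → (St N →ₗ[ℂ] ℂ)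
  | [] => 0
  | a :: s => (if h : (a : ℕ) + 1 < N then
      (br v ((N : ℤ) - 1 - (a : ℕ)) * v ^ (wtl s)) • ev (⟨a + 1, h⟩ :: s) else 0) +
        (eL v s).comp (cm a)

/-- `E` -/
noncomputable def eo (v : ℂ) : St N →ₗ[ℂ] St N := LinearMap.pi (eL v)

noncomputable def fL (v : ℂ) : List (Fin N) → (St N →ₗ[ℂ] ℂ)
  | [] => 0
  | a :: s => (if h : 0 < (a : ℕ) then
      br v (a : ℕ) • ev (⟨a - 1, lt_of_le_of_lt (Nat.sub_le _ _) a.2⟩ :: s) else 0) +
        v ^ (-((N : ℤ) - 1 - 2 * (a : ℕ))) • (fL v s).comp (cm a)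

/-- `F` -/
noncomputable def fo (v : ℂ) : St N →ₗ[ℂ] St N := LinearMap.pi (fL v)

lemma eo_nil (v : ℂ) (f : St N) : eo v f [] = 0 := rfl
lemma fo_nil (v : ℂ) (f : St N) : fo v f [] = 0 := rfl

lemma eo_cons (v : ℂ) (f : St N) (a : Fin N) (s : List (Fin N)) : eo v f (a :: s) =
    (if h : (a : ℕ) + 1 < N then
      br v ((N : ℤ) - 1 - (a : ℕ)) * v ^ (wtl s) * f (⟨a + 1, h⟩ :: s) else 0) +
      eo v (cm a f) s := by
  show eL v (a :: s) f = _
  rw [eL, LinearMap.add_apply]
  congr 1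
  split_ifs with h <;> rfl

lemma fo_cons (v : ℂ) (f : St N) (a : Fin N) (s : List (Fin N)) : fo v f (a :: s) =
    (if h : 0 < (a : ℕ) then
      br v (a : ℕ) * f (⟨a - 1, lt_of_le_of_lt (Nat.sub_le _ _) a.2⟩ :: s) else 0) +
      v ^ (-((N : ℤ) - 1 - 2 * (a : ℕ))) * fo v (cm a f) s := by
  show fL v (a :: s) f = _
  rw [fL, LinearMap.add_apply]
  congr 1
  split_ifs with h <;> rfl

/-- multiplication by a function of the length and of the sum of the indices -/
def mu (φ : ℕ → ℤ → ℂ) : St N →ₗ[ℂ] St N where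
  toFun f := fun s => φ s.length (isum s) * f s
  map_add' _ _ := by funext s; simp [mul_add]
  map_smul' _ _ := by funext s; simp; ring

@[simp] lemma mu_apply (φ : ℕ → ℤ → ℂ) (f : St N) (s : List (Fin N)) :
    mu φ f s = φ s.length (isum s) * f s := rfl

lemma cm_mu (φ : ℕ → ℤ → ℂ) (a : Fin N) (f : St N) :
    cm a (mu φ f) = mu (fun n y => φ (n + 1) ((a : ℕ) + y)) (cm a f) := by
  funext s; simp

lemma eo_mu (v : ℂ) (s : List (Fin N)) : ∀ (φ : ℕ → ℤ → ℂ) (f : St N),
    eo v (mu φ f) s = φ s.length (isum s + 1) * eo v f s := by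
  induction s with
  | nil => intro φ f; rw [eo_nil, eo_nil, mul_zero]
  | cons a s ih =>
    intro φ f
    rw [eo_cons, eo_cons, cm_mu, ih, mul_add]
    congr 1
    · split_ifs with h
      · simp only [mu_apply, List.length_cons, isum_cons]
        push_cast
        rw [show ((a : ℕ) : ℤ) + 1 + isum s = (a : ℕ) + isum s + 1 by ring]
        ring
      · simp
    · simp only [List.length_cons, isum_cons]
      rw [show ((a : ℕ) : ℤ) + (isum s + 1) = (a : ℕ) + isum s + 1 by ring]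

lemma fo_mu (v : ℂ) (s : List (Fin N)) : ∀ (φ : ℕ → ℤ → ℂ) (f : St N),
    fo v (mu φ f) s = φ s.length (isum s - 1) * fo v f s := by
  induction s with
  | nil => intro φ f; rw [fo_nil, fo_nil, mul_zero]
  | cons a s ih =>
    intro φ f
    rw [fo_cons, fo_cons, cm_mu, ih, mul_add]
    congr 1
    · split_ifs with h
      · simp only [mu_apply, List.length_cons, isum_cons]
        rw [show (((a : ℕ) - 1 : ℕ) : ℤ) + isum s = (a : ℕ) + isum s - 1 by
          push_cast [Nat.cast_sub h]; ring]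
        ring
      · simp
    · simp only [List.length_cons, isum_cons]
      rw [show ((a : ℕ) : ℤ) + (isum s - 1) = (a : ℕ) + isum s - 1 by ring]
      ring

/-! ### crossings -/

/-- a matrix on two strands -/
abbrev Mx (N : ℕ) := Matrix (Fin N × Fin N) (Fin N × Fin N) ℂ

noncomputable def cL (R : Mx N) : ℕ → List (Fin N) → (St N →ₗ[ℂ] ℂ)
  | 0, a :: b :: r => ∑ p : Fin N × Fin N, R (a, b) p • ev (p.1 :: p.2 :: r)
  | i + 1, a :: s => (cL R i s).comp (cm a)
  | _, _ => 0

/-- the matrix `R` on the strands `i` and `i + 1` -/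
noncomputable def cr (R : Mx N) (i : ℕ) : St N →ₗ[ℂ] St N := LinearMap.pi (cL R i)

lemma cr_zero (R : Mx N) (f : St N) (a b : Fin N) (r : List (Fin N)) :
    cr R 0 f (a :: b :: r) = ∑ p : Fin N × Fin N, R (a, b) p * f (p.1 :: p.2 :: r) := by
  show cL R 0 (a :: b :: r) f = _
  simp [cL]

lemma cr_succ (R : Mx N) (i : ℕ) (f : St N) (a : Fin N) (s : List (Fin N)) :
    cr R (i + 1) f (a :: s) = cr R i (cm a f) s := rfl

lemma cr_short (R : Mx N) (i : ℕ) : ∀ (f : St N) (s : List (Fin N)), s.length < i + 2 →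
    cr R i f s = 0 := by
  induction i with
  | zero =>
    intro f s hs
    rcases s with _ | ⟨a, _ | ⟨b, r⟩⟩
    · rfl
    · rfl
    · simp at hs
  | succ i ih =>
    intro f s hs
    rcases s with _ | ⟨a, s⟩
    · rfl
    · rw [cr_succ]
      exact ih _ _ (by simpa using hs)

lemma cm_cr_succ (R : Mx N) (i : ℕ) (f : St N) (a : Fin N) :
    cm a (cr R (i + 1) f) = cr R i (cm a f) := rfl

/-- `R` preserves the sum of the indices -/
def Wp (R : Mx N) : Prop := ∀ p q, R p q ≠ 0 → ((p.1 : ℕ) : ℤ) + (p.2 : ℕ) = (q.1 : ℕ) + (q.2 : ℕ)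

lemma cr_mu {R : Mx N} (hR : Wp R) (i : ℕ) : ∀ (φ : ℕ → ℤ → ℂ) (f : St N) (s : List (Fin N)),
    cr R i (mu φ f) s = φ s.length (isum s) * cr R i f s := by
  induction i with
  | zero =>
    intro φ f s
    rcases s with _ | ⟨a, _ | ⟨b, r⟩⟩
    · rw [cr_short _ _ _ _ (by simp), cr_short _ _ _ _ (by simp), mul_zero]
    · rw [cr_short _ _ _ _ (by simp), cr_short _ _ _ _ (by simp), mul_zero]
    · rw [cr_zero, cr_zero, mul_sum]
      refine sum_congr rfl fun p _ => ?_
      by_cases h : R (a, b) p = 0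
      · rw [h]; ring
      · have h1 := hR _ _ h
        simp only at h1
        simp only [mu_apply, List.length_cons, isum_cons]
        rw [show ((p.1 : ℕ) : ℤ) + ((p.2 : ℕ) + isum r) = (a : ℕ) + ((b : ℕ) + isum r) by
          linarith]
        ring
  | succ i ih =>
    intro φ f s
    rcases s with _ | ⟨a, s⟩
    · rw [cr_short _ _ _ _ (by simp), cr_short _ _ _ _ (by simp), mul_zero]
    · rw [cr_succ, cr_succ, cm_mu, ih]
      simp

lemma cr_mu' {R : Mx N} (hR : Wp R) (i : ℕ) (φ : ℕ → ℤ → ℂ) (f : St N) :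
    cr R i (mu φ f) = mu φ (cr R i f) := by
  funext s; exact cr_mu hR i φ f s

lemma W_E_apply (v : ℂ) (p q : Fin N × Fin N) : (W v N).E p q =
    (if (q.1 : ℕ) = p.1 + 1 then br v ((N : ℤ) - (q.1 : ℕ)) else 0) *
      (if p.2 = q.2 then v ^ ((N : ℤ) - 1 - 2 * (p.2 : ℕ)) else 0) +
    (if p.1 = q.1 then 1 else 0) *
      (if (q.2 : ℕ) = p.2 + 1 then br v ((N : ℤ) - (q.2 : ℕ)) else 0) := by
  have h : (W v N).E p q = (irr v N).E p.1 q.1 *
      (diagonal (fun i => v ^ ((1 : ℤ) * (irr v N).wt i)) : Matrix (Fin N) (Fin N) ℂ) p.2 q.2 +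
      (1 : Matrix (Fin N) (Fin N) ℂ) p.1 q.1 * (irr v N).E p.2 q.2 := rfl
  rw [h, diagonal_apply, one_apply, one_mul]
  rfl

/-- `E` on two strands -/
lemma W_E_mulVec (v : ℂ) (g : Fin N × Fin N → ℂ) (a b : Fin N) :
    ((W v N).E *ᵥ g) (a, b) =
      (if h : (a : ℕ) + 1 < N then
        br v ((N : ℤ) - 1 - (a : ℕ)) * v ^ ((N : ℤ) - 1 - 2 * (b : ℕ)) * g (⟨a + 1, h⟩, b) else 0) +
      (if h : (b : ℕ) + 1 < N then br v ((N : ℤ) - 1 - (b : ℕ)) * g (a, ⟨b + 1, h⟩) else 0) := by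
  simp only [Matrix.mulVec, dotProduct, W_E_apply, add_mul, sum_add_distrib]
  congr 1
  · split_ifs with h
    · rw [sum_eq_single (⟨a + 1, h⟩, b)]
      · simp only [if_true]
        push_cast
        rw [show (N : ℤ) - ((a : ℕ) + 1) = (N : ℤ) - 1 - (a : ℕ) by ring]
      · rintro ⟨c, d⟩ _ hcd
        simp only
        by_cases h1 : (c : ℕ) = a + 1
        · have h2 : b ≠ d := by
            rintro rfl
            exact hcd (Prod.ext (Fin.ext h1) rfl)
          rw [if_neg h2]; ring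
        · rw [if_neg h1]; ring
      · intro h1; exact absurd (mem_univ _) h1
    · refine sum_eq_zero ?_
      rintro ⟨c, d⟩ _
      have : ¬ ((c : ℕ) = a + 1) := by have := c.2; omega
      simp only [if_neg this]; ring
  · split_ifs with h
    · rw [sum_eq_single (a, ⟨b + 1, h⟩)]
      · simp only [if_true, one_mul]
        push_cast
        rw [show (N : ℤ) - ((b : ℕ) + 1) = (N : ℤ) - 1 - (b : ℕ) by ring]
      · rintro ⟨c, d⟩ _ hcd
        simp only
        by_cases h1 : (d : ℕ) = b + 1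
        · have h2 : a ≠ c := by
            rintro rfl
            exact hcd (Prod.ext rfl (Fin.ext h1))
          rw [if_neg h2]; ring
        · rw [if_neg h1]; ring
      · intro h1; exact absurd (mem_univ _) h1
    · refine sum_eq_zero ?_
      rintro ⟨c, d⟩ _
      have : ¬ ((d : ℕ) = b + 1) := by have := d.2; omega
      simp only [if_neg this]; ring

/-- `E` on a state with two explicit strands -/
lemma eo_two {v : ℂ} (hv : v ≠ 0) (f : St N) (a b : Fin N) (r : List (Fin N)) :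
    eo v f (a :: b :: r) =
      v ^ (wtl r) * ((W v N).E *ᵥ (fun p : Fin N × Fin N => f (p.1 :: p.2 :: r))) (a, b) +
        eo v (cm b (cm a f)) r := by
  rw [eo_cons, eo_cons, W_E_mulVec, ← add_assoc, mul_add]
  congr 2
  · split_ifs with h
    · rw [wtl_cons, zpow_add₀ hv]; ring
    · simp
  · split_ifs with h
    · simp only [cm_apply]; ring
    · simp

lemma eo_cr {v : ℂ} (hv : v ≠ 0) {R : Mx N} (hw : Wp R) (hR : R * (W v N).E = (W v N).E * R)
    (i : ℕ) : ∀ (f : St N) (s : List (Fin N)), eo v (cr R i f) s = cr R i (eo v f) s := by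
  induction i with
  | zero =>
    intro f s
    rcases s with _ | ⟨a, _ | ⟨b, r⟩⟩
    · rfl
    · have h2 : ∀ t : List (Fin N), t.length < 2 → cr R 0 f t = 0 := cr_short R 0 f
      rw [cr_short R 0 (eo v f) [a] (by simp), eo_cons, eo_nil]
      split_ifs with h
      · rw [h2 _ (by simp)]; ring
      · ring
    · rw [cr_zero, eo_two hv]
      have h1 : (fun p : Fin N × Fin N => cr R 0 f (p.1 :: p.2 :: r)) =
          R *ᵥ (fun p : Fin N × Fin N => f (p.1 :: p.2 :: r)) := by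
        funext p
        rw [cr_zero]; rfl
      have h2 : cm b (cm a (cr R 0 f)) = ∑ p : Fin N × Fin N, R (a, b) p • cm p.2 (cm p.1 f) := by
        funext t
        simp only [cm_apply, Finset.sum_apply, Pi.smul_apply, smul_eq_mul]
        rw [cr_zero]
      rw [h1, h2, Matrix.mulVec_mulVec, ← hR, ← Matrix.mulVec_mulVec, map_sum]
      simp only [map_smul, Finset.sum_apply, Pi.smul_apply, smul_eq_mul]
      rw [Matrix.mulVec, dotProduct, mul_sum, ← sum_add_distrib]
      refine sum_congr rfl fun p _ => ?_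
      rw [eo_two hv]; ring
  | succ i ih =>
    intro f s
    rcases s with _ | ⟨a, s⟩
    · rfl
    · rw [cr_succ, eo_cons, cm_cr_succ, ih]
      have h1 : cm a (eo v f) = (fun t => (if h : (a : ℕ) + 1 < N then
          br v ((N : ℤ) - 1 - (a : ℕ)) * v ^ (wtl t) * f (⟨a + 1, h⟩ :: t) else 0)) +
          eo v (cm a f) := by
        funext t
        rw [cm_apply, eo_cons]; rfl
      rw [h1, map_add, Pi.add_apply]
      congr 1
      split_ifs with h
      · have h2 : (fun t => br v ((N : ℤ) - 1 - (a : ℕ)) * v ^ (wtl t) *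
            f (⟨a + 1, h⟩ :: t)) = mu (fun n y => br v ((N : ℤ) - 1 - (a : ℕ)) *
              v ^ (n * ((N : ℤ) - 1) - 2 * y)) (cm ⟨a + 1, h⟩ f) := by
          funext t
          simp only [mu_apply, cm_apply, wtl]
        rw [h2, cr_mu hw, cr_succ]
        simp only [wtl]
      · have h2 : (fun _ : List (Fin N) => (0 : ℂ)) = 0 := rfl
        rw [h2, map_zero]; rfl

/-! ### The commutator of `E` and `F` -/

lemma cm_fo (v : ℂ) (f : St N) (a : Fin N) : cm a (fo v f) =
    (if h : 0 < (a : ℕ) then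
      br v (a : ℕ) • cm ⟨a - 1, lt_of_le_of_lt (Nat.sub_le _ _) a.2⟩ f else 0) +
      v ^ (-((N : ℤ) - 1 - 2 * (a : ℕ))) • fo v (cm a f) := by
  funext t
  rw [cm_apply, fo_cons]
  split_ifs with h <;> rfl

lemma cm_eo (v : ℂ) (f : St N) (a : Fin N) : cm a (eo v f) =
    (if h : (a : ℕ) + 1 < N then
      mu (fun n y => br v ((N : ℤ) - 1 - (a : ℕ)) * v ^ (n * ((N : ℤ) - 1) - 2 * y))
        (cm ⟨a + 1, h⟩ f) else 0) + eo v (cm a f) := by
  funext t
  rw [cm_apply, eo_cons]
  split_ifs with h <;> rfl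

lemma br_id (v : ℂ) (hv : v ≠ 0) (a X : ℤ) :
    br v (X - a) * br v (a + 1) - br v a * br v (X + 1 - a) = br v 1 * br v (X - 2 * a) := by
  unfold br
  have h := zpow_add₀ hv
  rw [sub_mul, mul_sub, mul_sub, sub_mul, mul_sub, mul_sub, sub_mul, mul_sub, mul_sub]
  simp only [← h]
  ring_nf

lemma ef_comm {v : ℂ} (hv : v ≠ 0) (s : List (Fin N)) : ∀ (f : St N),
    eo v (fo v f) s - fo v (eo v f) s = br v 1 * br v (wtl s) * f s := by
  induction s with
  | nil => intro f; rw [eo_nil, fo_nil]; simp [br]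
  | cons a s ih =>
    intro f
    rw [eo_cons, fo_cons, cm_fo, cm_eo, map_add, map_add, Pi.add_apply, Pi.add_apply]
    rw [map_smul, Pi.smul_apply, smul_eq_mul]
    have h0 := ih (cm a f)
    rw [cm_apply] at h0
    have hN : (a : ℕ) < N := a.2
    -- the four cross terms
    have e1 : (if h : (a : ℕ) + 1 < N then
        br v ((N : ℤ) - 1 - (a : ℕ)) * v ^ (wtl s) * fo v f (⟨a + 1, h⟩ :: s) else 0) =
        br v ((N : ℤ) - 1 - (a : ℕ)) * v ^ (wtl s) * br v ((a : ℕ) + 1) * f (a :: s) +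
        (if h : (a : ℕ) + 1 < N then br v ((N : ℤ) - 1 - (a : ℕ)) * v ^ (wtl s) *
          v ^ (-((N : ℤ) - 1 - 2 * ((a : ℕ) + 1))) * fo v (cm ⟨a + 1, h⟩ f) s else 0) := by
      split_ifs with h
      · rw [fo_cons, dif_pos (by simp)]
        simp only [Nat.add_sub_cancel]
        push_cast
        ring
      · have : (N : ℤ) - 1 - (a : ℕ) = 0 := by omega
        rw [this]; simp [br]
    have e2 : (if h : 0 < (a : ℕ) then
        br v (a : ℕ) * eo v f (⟨a - 1, lt_of_le_of_lt (Nat.sub_le _ _) a.2⟩ :: s) else 0) =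
        br v (a : ℕ) * br v ((N : ℤ) - (a : ℕ)) * v ^ (wtl s) * f (a :: s) +
        (if h : 0 < (a : ℕ) then br v (a : ℕ) *
          eo v (cm ⟨a - 1, lt_of_le_of_lt (Nat.sub_le _ _) a.2⟩ f) s else 0) := by
      split_ifs with h
      · rw [eo_cons, dif_pos (by simp only; omega)]
        have h3 : (⟨(a : ℕ) - 1 + 1, by omega⟩ : Fin N) = a := Fin.ext (by simp only; omega)
        simp only
        rw [h3, show (N : ℤ) - 1 - (((a : ℕ) - 1 : ℕ) : ℤ) = (N : ℤ) - (a : ℕ) by
          push_cast [Nat.cast_sub h]; ring]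
        ring
      · have : ((a : ℕ) : ℤ) = 0 := by omega
        rw [this]; simp [br]
    have e3 : eo v (if h : 0 < (a : ℕ) then
        br v (a : ℕ) • cm ⟨a - 1, lt_of_le_of_lt (Nat.sub_le _ _) a.2⟩ f else 0) s =
        (if h : 0 < (a : ℕ) then br v (a : ℕ) *
          eo v (cm ⟨a - 1, lt_of_le_of_lt (Nat.sub_le _ _) a.2⟩ f) s else 0) := by
      split_ifs with h
      · rw [map_smul]; rfl
      · rw [map_zero]; rfl
    have e4 : v ^ (-((N : ℤ) - 1 - 2 * ((a : ℕ) : ℤ))) * fo v (if h : (a : ℕ) + 1 < N then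
        mu (fun n y => br v ((N : ℤ) - 1 - (a : ℕ)) * v ^ (n * ((N : ℤ) - 1) - 2 * y))
          (cm ⟨a + 1, h⟩ f) else 0) s =
        (if h : (a : ℕ) + 1 < N then br v ((N : ℤ) - 1 - (a : ℕ)) * v ^ (wtl s) *
          v ^ (-((N : ℤ) - 1 - 2 * ((a : ℕ) + 1))) * fo v (cm ⟨a + 1, h⟩ f) s else 0) := by
      split_ifs with h
      · rw [fo_mu]
        have : v ^ (-((N : ℤ) - 1 - 2 * ((a : ℕ) : ℤ))) *
            v ^ ((s.length : ℤ) * ((N : ℤ) - 1) - 2 * (isum s - 1)) =
            v ^ (wtl s) * v ^ (-((N : ℤ) - 1 - 2 * (((a : ℕ) : ℤ) + 1))) := by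
          rw [← zpow_add₀ hv, ← zpow_add₀ hv]
          congr 1
          unfold wtl; ring
        linear_combination (br v ((N : ℤ) - 1 - (a : ℕ)) * fo v (cm ⟨a + 1, h⟩ f) s) * this
      · rw [map_zero]; simp
    have e5 := br_id v hv (a : ℕ) ((N : ℤ) - 1)
    have e6 : v ^ (wtl s) * br v ((N : ℤ) - 1 - 2 * (a : ℕ)) +
        v ^ (-((N : ℤ) - 1 - 2 * (a : ℕ))) * br v (wtl s) = br v (wtl (a :: s)) := by
      rw [wtl_cons]
      unfold br
      have h := zpow_add₀ hv
      rw [mul_sub, mul_sub]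
      simp only [← h]
      ring_nf
    have e7 : (N : ℤ) - 1 + 1 - (a : ℕ) = (N : ℤ) - (a : ℕ) := by ring
    rw [e7] at e5
    rw [e1, e2, e3]
    linear_combination (v ^ (wtl s) * f (a :: s)) * e5 +
      v ^ (-((N : ℤ) - 1 - 2 * ((a : ℕ) : ℤ))) * h0 + (br v 1 * f (a :: s)) * e6 - e4

end Pool.Agent.K7.H32.FT
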