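import Pool.Agent.W709.QAT.Stm
import Pool.Agent.W715.VC.Cross
import Pool.Agent.W719.BX.Alg

/-!
# Project FT: full twists on `n` strands and the growth of the Kashaev invariants

Statements of the analytic jobs. `rt N = e^{π i/N}`. The disc `Near N` has radius `N ^ (-4)` and centre
`rt N`, the circle `OnC N` is its boundary. `Adm N v`: `v ≠ 0` and `{k} ≠ 0` for `0 < k < N`
(`Pool.Agent.H550R3.Jones.Adm`); `brf v k = {k}!`, `Fa N k = |{k}!|` at `rt N`.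
-/

set_option autoImplicit false

namespace Pool.Agent.K7.H32.FT

open Finset Matrix Filter Topology Pool.Agent.H550R3.Jones Pool.Agent.W715.VC
open Pool.Agent.W709.QAT (Fa)
open GapVol (lob)
open scoped Real

/-- the closed disc of radius `N ^ (-4)` about `rt N` -/
def Near (N : ℕ) (v : ℂ) : Prop := ‖v - rt N‖ ≤ 1 / (N : ℝ) ^ 4

/-- the circle of radius `N ^ (-4)` about `rt N` -/
def OnC (N : ℕ) (v : ℂ) : Prop := ‖v - rt N‖ = 1 / (N : ℝ) ^ 4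

/-- JN1: powers on the disc -/
def S_POW : Prop := ∀ (M : ℕ) (ε : ℝ), 0 < ε → ∀ᶠ N : ℕ in atTop, ∀ v : ℂ, Near N v →
  ∀ k : ℤ, |k| ≤ M * (N : ℤ) ^ 2 → ‖v ^ k‖ ≤ Real.exp (ε / N)

/-- JN2: the disc is admissible and the factorials are those of the centre up to a factor `2` -/
def S_FAC : Prop := ∀ᶠ N : ℕ in atTop, ∀ v : ℂ, Near N v → Adm N v ∧
  ∀ k : ℕ, k < N → ‖brf v k‖ ≤ 2 * Fa N k ∧ Fa N k ≤ 2 * ‖brf v k‖

/-- JL: lower bound of the product of the `{k}`, `1 ≤ k ≤ n N`, on the circle; none of them is zero.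
(`(2 / π) Λ(π/6)` is the integral of `- min (0, log (2 sin (π x)))` over the unit interval.) -/
def S_LOW : Prop := ∀ (n : ℕ) (ε : ℝ), 0 < ε → ∀ᶠ N : ℕ in atTop, ∀ v : ℂ, OnC N v →
  Real.exp (-(N * (n * (2 * lob (π / 6) / π) + ε))) ≤
    ∏ k ∈ range (n * N), min 1 ‖br v ((k : ℤ) + 1)‖

/-- JE: the entries of the crossings, the cups and the caps on the disc -/
def S_ENTRY : Prop := ∀ ε : ℝ, 0 < ε → ∀ᶠ N : ℕ in atTop, ∀ v : ℂ, Near N v →
  (∀ p q : Fin N × Fin N, ‖crossP N v p q‖ ≤ Real.exp (N * (4 * lob (π / 4) / π + ε)) ∧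
    ‖crossN N v p q‖ ≤ Real.exp (N * (4 * lob (π / 4) / π + ε))) ∧
  ∀ p : Fin N × Fin N, ‖Pool.Agent.W709.QAT.cup N v p‖ ≤ Real.exp (N * ε) ∧
    ‖Pool.Agent.W709.QAT.cap N v p‖ ≤ Real.exp (N * ε)

/-- JH: the coloured Jones polynomial is holomorphic at the admissible points -/
def S_HOL : Prop := ∀ (N : ℕ) (D : Pool.Agent.W709.QAT.Diag) (v : ℂ), 1 ≤ N → Adm N v →
  DifferentiableAt ℂ (Pool.Agent.W709.QAT.jones N D) v

/-- the admissible points for all `{k}`, `0 < k ≤ K` -/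
def Om (K : ℕ) : Set ℂ := {v | v ≠ 0 ∧ ∀ k : ℕ, 0 < k → k ≤ K → br v k ≠ 0}

/-- JX: identity theorem on `Om K` -/
def S_IDT : Prop := ∀ (K : ℕ), IsOpen (Om K) ∧ ∀ f g : ℂ → ℂ, DifferentiableOn ℂ f (Om K) →
  DifferentiableOn ℂ g (Om K) → (∀ x : ℝ, 1 < x → f x = g x) → ∀ v ∈ Om K, f v = g v

end Pool.Agent.K7.H32.FT
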