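import Pool.Agent.K7.H32.FT.Ops

/-!
# Project FT: statements of the algebraic jobs
-/

set_option autoImplicit false

namespace Pool.Agent.K7.H32.FT

open Finset Matrix Filter Pool.Agent.H550R3.Jones Pool.Agent.W715.VC Polynomial
open GapVol (lob)

variable {N : ℕ}

/-- the crossing -/
noncomputable def Rm (N : ℕ) (v : ℂ) (σ : Bool) : Mx N := if σ then crossP N v else crossN N v

/-- the crossings at the positions `w`, the first letter first -/
noncomputable def opw (R : Mx N) : List ℕ → (St N →ₗ[ℂ] St N)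
  | [] => LinearMap.id
  | i :: w => (opw R w).comp (cr R i)

/-- the word of the full twist on `n` strands (a palindrome) -/
def ftw : ℕ → List ℕ
  | 0 => []
  | n + 1 => List.range n ++ ftw n ++ (List.range n).reverse

/-- the full twist on `n` strands -/
noncomputable def ft (N : ℕ) (v : ℂ) (n : ℕ) (σ : Bool) : St N →ₗ[ℂ] St N :=
  opw (Rm N v σ) (ftw n)

/-- the exponent of the eigenvalue of the full twist on highest weight vectors of index sum `y` -/
def ee (N n : ℕ) (y : ℤ) : ℤ := -(((N : ℤ) - 1) * n * (n - 1 + 2 * y)) + 2 * y * (y - 1)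

/-- the sign -/
def sgn (σ : Bool) : ℤ := if σ then 1 else -1

/-- `nX - 2y + 1`, `X = N - 1` -/
def cc (N n : ℕ) (y : ℤ) : ℤ := n * ((N : ℤ) - 1) - 2 * y + 1

/-- the eigenvalue of the Casimir operator on highest weight vectors of index sum `y` -/
noncomputable def zz (N : ℕ) (v : ℂ) (n : ℕ) (y : ℤ) : ℂ := v ^ (cc N n y) + v ^ (-(cc N n y))

/-- the Casimir operator -/
noncomputable def cas (N : ℕ) (v : ℂ) : St N →ₗ[ℂ] St N :=
  (fo v).comp (eo v) + mu (fun n y => zz N v n y)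

/-- `f` is killed by `E` on the states of length `n` -/
def KE (v : ℂ) (n : ℕ) (f : St N) : Prop := ∀ s, s.length = n → eo v f s = 0

/-! ### the Hermitian form for real `x > 1` -/

/-- sum over the states of length `n` -/
def sm {M : Type} [AddCommMonoid M] : ℕ → (List (Fin N) → M) → M
  | 0, h => h []
  | n + 1, h => ∑ a : Fin N, sm n (fun s => h (a :: s))

noncomputable def rb (x : ℝ) (k : ℤ) : ℝ := x ^ k - x ^ (-k)
noncomputable def rbf (x : ℝ) (n : ℕ) : ℝ := ∏ j ∈ range n, rb x ((j : ℤ) + 1)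

/-- the weights of the form -/
noncomputable def GG (x : ℝ) : List (Fin N) → ℝ
  | [] => 1
  | a :: s => 1 / (rbf x a * rbf x (N - 1 - a)) * x ^ (-(2 * (a : ℕ) * isum s)) * GG x s

/-- the form -/
noncomputable def ip (x : ℝ) (n : ℕ) (f g : St N) : ℂ :=
  sm n (fun s => (GG x s : ℂ) * (starRingEnd ℂ (f s) * g s))

/-- `Q` is self-adjoint on the states of length `n` -/
def SA (x : ℝ) (n : ℕ) (Q : St N →ₗ[ℂ] St N) : Prop := ∀ f g, ip x n (Q f) g = ip x n f (Q g)

/-- F1. Self-adjointness of the crossings for real `x > 1`. (`G p R p q = G q R q p` for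
`G (a, b) = γ a γ b x^(-2ab)`, `γ a = 1/({a}! {N-1-a}!)`, `R = crossP`; then for the inverse
`crossN` (`PQ`, `QP` of `Pool.Agent.W715.VC`); then induction on `i` with an additional factor
`φ (isum s)`, `φ : ℤ → ℂ`.) -/
def S_SAC : Prop := ∀ (N : ℕ) (x : ℝ), 1 < x → ∀ (σ : Bool) (i n : ℕ), SA x n (cr (Rm N x σ) i)

/-- F2. `E` and `F` are adjoint up to a constant. Prove by induction on `n` with an additional
factor `φ (isum s)` on the left and `φ (isum s - 1)` on the right. -/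
def S_ADJ : Prop := ∀ (N : ℕ) (x : ℝ), 1 < x → ∀ (n : ℕ) (f g : St N),
  ip x n (eo x f) g = (x : ℂ) ^ (((n : ℤ) - 1) * ((N : ℤ) - 1)) * ip x n f (fo x g)

/-- F3. The form is positive definite; multiplication operators. -/
def S_POS : Prop := ∀ (N : ℕ) (x : ℝ), 1 < x → ∀ (n : ℕ),
  (∀ f : St N, 0 ≤ (ip x n f f).re) ∧
  (∀ f : St N, ip x n f f = 0 → ∀ s, s.length = n → f s = 0) ∧
  ∀ φ : ℕ → ℤ → ℂ, (∀ n y, starRingEnd ℂ (φ n y) = φ n y) → SA (N := N) x n (mu φ)

/-- F4. A vector killed by `E` has no components of negative weight.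
(`‖F f‖² ~ ⟨E F f, f⟩ = {1} {wtl} ‖f‖²` by `ef_comm`.) -/
def S_NEG : Prop := S_ADJ → S_POS → ∀ (N : ℕ) (x : ℝ), 1 < x → ∀ (n : ℕ) (f : St N), KE x n f →
  ∀ s, s.length = n → wtl s < 0 → f s = 0

/-- B1. The first strand moves to the last place: top components. -/
def S_UP : Prop := ∀ (N : ℕ) (v : ℂ), Adm N v → ∀ (f : St N) (k : Fin N) (n : ℕ),
  (∀ (a : Fin N) (r : List (Fin N)), r.length = n → k < a → f (a :: r) = 0) →
  ∀ r : List (Fin N), r.length = n →
    (∀ b : Fin N, k < b → opw (crossP N v) (List.range n) f (r ++ [b]) = 0) ∧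
    opw (crossP N v) (List.range n) f (r ++ [k]) =
      v ^ (-(((N : ℤ) - 1) * (n * (1 + (k : ℕ)) + isum r)) + 2 * (k : ℕ) * isum r) * f (k :: r)

/-- B2. The last strand moves to the first place: the components with first index `0`. -/
def S_DN : Prop := ∀ (N : ℕ) (v : ℂ), Adm N v → ∀ (f : St N) (k : Fin N) (n : ℕ), (k : ℕ) = 0 →
  ∀ r : List (Fin N), r.length = n →
    opw (crossP N v) (List.range n).reverse f (k :: r) =
      v ^ (-(((N : ℤ) - 1) * (n + isum r))) * f (r ++ [k])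

/-- B3. `E` at a state with explicit last strand. -/
def S_SNOC : Prop := ∀ (N : ℕ) (v : ℂ), v ≠ 0 → ∀ (f : St N) (b : Fin N) (r : List (Fin N)),
  eo v f (r ++ [b]) = v ^ ((N : ℤ) - 1 - 2 * (b : ℕ)) * eo v (fun t => f (t ++ [b])) r +
    (if h : (b : ℕ) + 1 < N then br v ((N : ℤ) - 1 - (b : ℕ)) * f (r ++ [⟨b + 1, h⟩]) else 0)

/-- B4. Comparison of the components of two vectors killed by `E` (use `eo_cons`, `S_SNOC`, `eo_mu`,
induction on `a`). -/
def S_CMP : Prop := ∀ (N : ℕ) (v : ℂ), Adm N v → ∀ (n : ℕ) (f g : St N), KE v (n + 1) f →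
  KE v (n + 1) g →
  (∀ (k : Fin N) (r : List (Fin N)), (k : ℕ) = 0 → r.length = n →
    f (k :: r) = v ^ (-(((N : ℤ) - 1) * (n + isum r))) * g (r ++ [k])) →
  ∀ (a : Fin N) (r : List (Fin N)), r.length = n →
    f (a :: r) = v ^ (-(((N : ℤ) - 1) * (n + ((a : ℕ) + isum r))) +
      (a : ℕ) * (2 * ((a : ℕ) + isum r - 1) - (n + 1) * ((N : ℤ) - 1))) * g (r ++ [a])

/-- B5. The positive full twist on vectors killed by `E`: induction on `n`; see the sketch. -/
def S_EIG : Prop := ∀ (N : ℕ) (x : ℝ), 1 < x → ∀ (n : ℕ) (f : St N), KE (x : ℂ) n f →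
  ∀ s, s.length = n → ft N x n true f s = (x : ℂ) ^ (ee N n (isum s)) * f s

/-- P1. A self-adjoint operator which commutes with `E` and kills the kernel of `E` is zero.
(`Q^j` kills the kernel of `E^j`; `E^M = 0` on the states of length `n` for large `M`.) -/
def S_PRI : Prop := S_POS → ∀ (N : ℕ) (x : ℝ), 1 < x → ∀ (n : ℕ) (Q : St N →ₗ[ℂ] St N), SA x n Q →
  (∀ f s, s.length = n → eo x (Q f) s = Q (eo x f) s) →
  (∀ f, (∀ s, s.length = n → f s = 0) → ∀ s, s.length = n → Q f s = 0) →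
  (∀ f, KE x n f → ∀ s, s.length = n → Q f s = 0) → ∀ f s, s.length = n → Q f s = 0

/-- the number of eigenvalues minus one -/
def Sn (N n : ℕ) : ℕ := n * (N - 1) / 2

/-- `∏_{y' ≠ y} (C - z_{y'})`, applied to `f` -/
noncomputable def pc (N : ℕ) (v : ℂ) (n : ℕ) (l : List ℕ) (f : St N) : St N :=
  l.foldr (fun (y : ℕ) (g : St N) => cas N v g - zz N v n y • g) f

/-- the right hand side of the identity -/
noncomputable def rhs (N : ℕ) (v : ℂ) (n : ℕ) (σ : Bool) (A : ℕ) (f : St N) (s : List (Fin N)) : ℂ :=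
  ∑ y ∈ range (Sn N n + 1), v ^ (sgn σ * A * ee N n y) *
    (∏ y' ∈ (range (Sn N n + 1)).erase y, (zz N v n y - zz N v n y'))⁻¹ *
      pc N v n ((List.range (Sn N n + 1)).filter (· ≠ y)) f s

/-- P2. The powers of the full twist as polynomials in the Casimir operator, real `x > 1`. -/
def S_REAL : Prop := ∀ (N : ℕ) (x : ℝ), 1 ≤ N → 1 < x → ∀ (n : ℕ) (σ : Bool) (A : ℕ) (f : St N)
  (s : List (Fin N)), s.length = n → ((ft N x n σ) ^ A) f s = rhs N x n σ A f s

/-- P3. The same for all `v`, by the identity theorem. -/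
def S_ALL : Prop := S_REAL → S_IDT → ∀ (N : ℕ), 1 ≤ N → ∀ (n K : ℕ), n * N ≤ K → N ≤ K → ∀ v ∈ Om K,
  ∀ (σ : Bool) (A : ℕ) (f : St N) (s : List (Fin N)), s.length = n →
    ((ft N v n σ) ^ A) f s = rhs N v n σ A f s

/-- Q1. The bound on the circle. -/
def S_BND : Prop := S_POW → S_LOW → ∀ (n A : ℕ), 1 ≤ n → ∀ ε : ℝ, 0 < ε → ∀ᶠ N : ℕ in atTop,
  ∀ v : ℂ, OnC N v → (v ∈ Om (n * N)) ∧ ∀ (σ : Bool) (f : St N) (B : ℝ), 0 ≤ B →
    (∀ s : List (Fin N), s.length = n → ‖f s‖ ≤ B) → ∀ s : List (Fin N), s.length = n →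
      ‖rhs N v n σ A f s‖ ≤ Real.exp (N * (n / 2 * Real.log (4 * (n : ℝ) ^ 2 + 4) +
        3 * n * (2 * lob (Real.pi / 6) / Real.pi) + ε)) * B

end Pool.Agent.K7.H32.FT
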